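import Mathlib

/-! A function on the residues modulo a prime that changes under doubling. -/

namespace Pool.Agent.Run7.h353.PS

/-- If the order of two modulo the prime `q` is even, there is a function on the residues which
changes under multiplication by two. -/
theorem exists_dd {q : ℕ} (hq : q.Prime) (hq2 : q % 2 = 1) (he : Even (orderOf (2 : ZMod q))) :
    ∃ d : ℕ → Fin 2, (∀ u, d (u % q) = d u) ∧ ∀ u, u % q ≠ 0 → d (2 * u) = d u + 1 := by
  classical
  have : Fact q.Prime := ⟨hq⟩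
  have h2 : (2 : ZMod q) ≠ 0 := by
    have hcast : ((2 : ℕ) : ZMod q) ≠ 0 := by
      rw [Ne, ZMod.natCast_eq_zero_iff]
      intro h
      have h3 := Nat.le_of_dvd (by norm_num) h
      have h4 := hq.two_le
      interval_cases q
      omega
    exact_mod_cast hcast
  set t : (ZMod q)ˣ := Units.mk0 2 h2 with ht
  have hto : orderOf t = orderOf (2 : ZMod q) := by
    rw [← orderOf_units]
    rfl
  set S := Subgroup.zpowers t with hS
  -- exponents
  have hex : ∀ u : (ZMod q)ˣ, ∃ k : ℤ, u = (QuotientGroup.mk u : (ZMod q)ˣ ⧸ S).out * t ^ k := by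
    intro u
    have h1 : (QuotientGroup.mk u : (ZMod q)ˣ ⧸ S).out⁻¹ * u ∈ S := by
      rw [← QuotientGroup.eq]
      exact QuotientGroup.out_eq' _
    obtain ⟨k, hk⟩ := Subgroup.mem_zpowers_iff.1 h1
    exact ⟨k, by rw [hk]; group⟩
  choose K hK using hex
  have hpar : ∀ u : (ZMod q)ˣ, (K (u * t) % 2 : ℤ) ≠ K u % 2 := by
    intro u
    have h1 : (QuotientGroup.mk (u * t) : (ZMod q)ˣ ⧸ S) = QuotientGroup.mk u := by
      rw [QuotientGroup.eq]
      refine Subgroup.mem_zpowers_iff.2 ⟨-1, ?_⟩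
      rw [zpow_neg_one, mul_inv_rev, mul_assoc, inv_mul_cancel, mul_one]
    have h3 := hK (u * t)
    rw [h1] at h3
    have h4 : (QuotientGroup.mk u : (ZMod q)ˣ ⧸ S).out * t ^ (K (u * t)) =
        (QuotientGroup.mk u : (ZMod q)ˣ ⧸ S).out * t ^ (K u + 1) := by
      rw [← h3, zpow_add_one, ← mul_assoc, ← hK u]
    have h5 := mul_left_cancel h4
    rw [zpow_eq_zpow_iff_modEq, hto] at h5
    have h6 : K (u * t) ≡ K u + 1 [ZMOD 2] := by
      obtain ⟨m, hm⟩ := he
      refine h5.of_dvd ?_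
      rw [hm]
      exact ⟨m, by push_cast; ring⟩
    intro h7
    have h8 : (K u + 1) % 2 = K u % 2 := by
      rw [← h7]; exact h6.symm
    omega
  set d : ℕ → Fin 2 := fun u => if h : ((u : ℕ) : ZMod q) ≠ 0 then
    (if K (Units.mk0 _ h) % 2 = 0 then 0 else 1) else 0 with hd
  refine ⟨d, ?_, ?_⟩
  · intro u
    simp only [hd, ZMod.natCast_mod]
  · intro u hu
    have hu0 : ((u : ℕ) : ZMod q) ≠ 0 := by
      rw [Ne, ZMod.natCast_eq_zero_iff]
      intro h
      exact hu (Nat.mod_eq_zero_of_dvd h)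
    have hu2 : ((2 * u : ℕ) : ZMod q) ≠ 0 := by
      push_cast
      exact mul_ne_zero h2 hu0
    have e : Units.mk0 _ hu2 = Units.mk0 _ hu0 * t := by
      ext
      push_cast [ht]
      simp [mul_comm]
    have h9 := hpar (Units.mk0 _ hu0)
    rw [← e] at h9
    simp only [hd, dif_pos hu0, dif_pos hu2]
    have h10 := Int.emod_two_eq (K (Units.mk0 _ hu2))
    have h11 := Int.emod_two_eq (K (Units.mk0 _ hu0))
    rcases h10 with h10 | h10 <;> rcases h11 with h11 | h11 <;> rw [h10, h11] at h9 ⊢ <;>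
      simp at h9 ⊢

end Pool.Agent.Run7.h353.PS
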