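import Mathlib

/-! Powers of four modulo powers of an odd number. -/

namespace Pool.Agent.Run7.h353.PS

/-- Binomial expansion with remainder of order two. -/
theorem binom2 (Y n : ℕ) : ∃ q, (1 + Y) ^ n = 1 + n * Y + Y ^ 2 * q := by
  induction n with
  | zero => exact ⟨0, by simp⟩
  | succ n ih =>
    obtain ⟨q, hq⟩ := ih
    refine ⟨n + q + Y * q, ?_⟩
    rw [pow_succ, hq]
    ring

/-- Binomial expansion with remainder of order three. -/
theorem binom3 (Y n : ℕ) : ∃ q, (1 + Y) ^ n = 1 + n * Y + n.choose 2 * Y ^ 2 + Y ^ 3 * q := by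
  induction n with
  | zero => exact ⟨0, by simp⟩
  | succ n ih =>
    obtain ⟨q, hq⟩ := ih
    refine ⟨n.choose 2 + q + Y * q, ?_⟩
    have h : (n + 1).choose 2 = n + n.choose 2 := by
      rw [Nat.choose_succ_succ' n 1, Nat.choose_one_right]
    rw [pow_succ, hq, h]
    ring

theorem pow_odd {b Y : ℕ} (hb : b % 2 = 1) (hY : b ∣ Y) :
    ∃ g, (1 + Y) ^ b = 1 + b * Y * (1 + b * g) := by
  obtain ⟨q, hq⟩ := binom3 Y b
  obtain ⟨w, rfl⟩ := hY
  obtain ⟨m, hm⟩ : ∃ m, b.choose 2 = b * m := by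
    refine ⟨(b - 1) / 2, ?_⟩
    rw [Nat.choose_two_right]
    have h1 : 2 ∣ b - 1 := by omega
    exact Nat.mul_div_assoc b h1
  refine ⟨m * w + w ^ 2 * b * q / b, ?_⟩
  rw [hq, hm]
  rcases Nat.eq_zero_or_pos b with h | h
  · omega
  · have e : w ^ 2 * b * q / b = w ^ 2 * q := by
      have : w ^ 2 * b * q = b * (w ^ 2 * q) := by ring
      rw [this, Nat.mul_div_cancel_left _ h]
    rw [e]
    ring

/-- The powers `(1 + D) ^ (b ^ i)`. -/
theorem pow_pow {b D : ℕ} (hb : b % 2 = 1) (hD : b ∣ D) (i : ℕ) :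
    ∃ f, (1 + D) ^ (b ^ i) = 1 + b ^ i * D * (1 + b * f) := by
  induction i with
  | zero => exact ⟨0, by simp⟩
  | succ i ih =>
    obtain ⟨f, hf⟩ := ih
    obtain ⟨g, hg⟩ := pow_odd (b := b) (Y := b ^ i * D * (1 + b * f)) hb
      (Dvd.dvd.mul_right (Dvd.dvd.mul_left hD _) _)
    refine ⟨f + g + b * f * g, ?_⟩
    rw [pow_succ, pow_mul, hf, hg]
    ring

/-- The closed subgroup generated by `1 + D` contains all `u` congruent to one modulo `D`. -/
theorem orbit {b D : ℕ} (hb : b % 2 = 1) (hD : b ∣ D) {u : ℕ} (hu : ∃ e, u = 1 + D * e) (i : ℕ) :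
    ∃ j e, (1 + D) ^ j * u = 1 + D * b ^ i * e := by
  induction i with
  | zero =>
    obtain ⟨e, rfl⟩ := hu
    exact ⟨0, e, by simp⟩
  | succ i ih =>
    obtain ⟨j, e, hj⟩ := ih
    obtain ⟨f, hf⟩ := pow_pow (D := D) hb hD i
    obtain ⟨w, hw⟩ := hD
    obtain ⟨c, hc⟩ : ∃ c, b = c + 1 := ⟨b - 1, by omega⟩
    -- the exponent `c * e`, so that `c * e + e = b * e`
    obtain ⟨q, hq⟩ := binom2 (b ^ i * D * (1 + b * f)) (c * e)
    set Z := b ^ i * D * (1 + b * f) with hZ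
    obtain ⟨t, ht⟩ : ∃ t, Z = b * t := ⟨b ^ i * w * (1 + b * f), by rw [hZ, hw]; ring⟩
    refine ⟨b ^ i * (c * e) + j, e + c * e * f + t * (1 + b * f) * q + t * (c * e) * e +
      Z * t * q * e, ?_⟩
    have h1 : (1 + D) ^ (b ^ i * (c * e) + j) * u =
        (1 + c * e * Z + Z ^ 2 * q) * (1 + D * b ^ i * e) := by
      rw [pow_add, pow_mul, hf, mul_assoc, hj, hq]
    rw [h1]
    have h2 : c * e * Z + D * b ^ i * e = D * b ^ (i + 1) * (e + c * e * f) := by
      have : D * b ^ (i + 1) * (e + c * e * f) = D * b ^ i * (b * e + c * e * (b * f)) := by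
        rw [pow_succ]; ring
      rw [this, hZ]
      have h3 : b * e = c * e + e := by rw [hc]; ring
      rw [h3]
      ring
    have h3 : Z ^ 2 * q = D * b ^ (i + 1) * (t * (1 + b * f) * q) := by
      have : Z ^ 2 = Z * (b * t) := by rw [← ht]; ring
      rw [this, hZ, pow_succ]
      ring
    have h4 : c * e * Z * (D * b ^ i * e) = D * b ^ (i + 1) * (t * (c * e) * e) := by
      rw [ht, pow_succ]; ring
    have h5 : Z ^ 2 * q * (D * b ^ i * e) = D * b ^ (i + 1) * (Z * t * q * e) := by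
      have : Z ^ 2 = Z * (b * t) := by rw [← ht]; ring
      rw [this, pow_succ]; ring
    calc (1 + c * e * Z + Z ^ 2 * q) * (1 + D * b ^ i * e)
        = 1 + (c * e * Z + D * b ^ i * e) + Z ^ 2 * q + c * e * Z * (D * b ^ i * e) +
          Z ^ 2 * q * (D * b ^ i * e) := by ring
      _ = _ := by rw [h5, h4, h3, h2]; ring

/-- The number `D = 4 ^ φ(b) - 1`. -/
theorem exists_D {b : ℕ} (hb : b % 2 = 1) : ∃ r D, b ∣ D ∧ 3 ≤ D ∧ 4 ^ r = 1 + D := by
  have hcop : Nat.Coprime 4 b := by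
    have : Nat.Coprime 2 b := (Nat.coprime_two_left).2 (Nat.odd_iff.2 hb)
    exact Nat.Coprime.pow_left 2 this
  have h1 : 4 ^ Nat.totient b ≡ 1 [MOD b] := Nat.ModEq.pow_totient hcop
  have hpos : 0 < Nat.totient b := Nat.totient_pos.2 (by omega)
  have h2 : 4 ≤ 4 ^ Nat.totient b := by
    calc 4 = 4 ^ 1 := by norm_num
      _ ≤ 4 ^ Nat.totient b := Nat.pow_le_pow_right (by norm_num) hpos
  refine ⟨Nat.totient b, 4 ^ Nat.totient b - 1, ?_, by omega, by omega⟩
  exact (Nat.modEq_iff_dvd' (by omega)).1 h1.symm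

end Pool.Agent.Run7.h353.PS
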