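import Mathlib
import Pool.Agent.Helper446.Oracle

/-! The greedy construction relative to an oracle. -/

namespace Pool.Agent.Run7.h353.PS

open Pool.Agent.Helper446 Pool.Agent.Helper446.RE Pool.Agent.Helper446.Oracle

variable {A : Set ℕ} {P : ℕ → Prop} {R : ℕ → ℕ → Prop}

open Classical in
/-- The elements accepted below `n`. -/
noncomputable def accL (P : ℕ → Prop) (R : ℕ → ℕ → Prop) : ℕ → List ℕ
  | 0 => []
  | n + 1 => if P n ∧ ∀ z ∈ accL P R n, R z n then n :: accL P R n else accL P R n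

/-- `n` is accepted. -/
def Acp (P : ℕ → Prop) (R : ℕ → ℕ → Prop) (n : ℕ) : Prop := P n ∧ ∀ z ∈ accL P R n, R z n

theorem mem_accL {n z : ℕ} : z ∈ accL P R n ↔ z < n ∧ Acp P R z := by
  induction n with
  | zero => simp [accL]
  | succ n ih =>
    rw [accL]
    split_ifs with h
    · rw [List.mem_cons, ih]
      constructor
      · rintro (rfl | ⟨h2, h3⟩)
        · exact ⟨by omega, h⟩
        · exact ⟨by omega, h3⟩
      · rintro ⟨h2, h3⟩
        rcases Nat.lt_succ_iff_lt_or_eq.1 h2 with h4 | h4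
        · exact Or.inr ⟨h4, h3⟩
        · exact Or.inl h4
    · rw [ih]
      constructor
      · rintro ⟨h2, h3⟩; exact ⟨by omega, h3⟩
      · rintro ⟨h2, h3⟩
        refine ⟨?_, h3⟩
        rcases Nat.lt_succ_iff_lt_or_eq.1 h2 with h4 | h4
        · exact h4
        · subst h4; exact absurd h3 h

theorem acp_iff {n : ℕ} : Acp P R n ↔ P n ∧ ∀ z < n, Acp P R z → R z n := by
  constructor
  · intro h
    exact ⟨h.1, fun z hz hz' => h.2 z (mem_accL.2 ⟨hz, hz'⟩)⟩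
  · rintro ⟨h1, h2⟩
    exact ⟨h1, fun z hz => h2 z (mem_accL.1 hz).1 (mem_accL.1 hz).2⟩

/-- `l` is the history of the construction below `n`. -/
def Hst (P : ℕ → Prop) (R : ℕ → ℕ → Prop) (n : ℕ) (l : List ℕ) : Prop :=
  ∀ i < n, (l[i]? = some 1 ∧ (P i ∧ ∀ z < i, (l[z]? = some 0 ∨ R z i))) ∨
    (l[i]? = some 0 ∧ (¬ P i ∨ ∃ z, z < i ∧ (l[z]? = some 1 ∧ ¬ R z i)))

theorem hst_spec {n : ℕ} {l : List ℕ} (h : Hst P R n l) :
    ∀ i < n, (l[i]? = some 1 ∧ Acp P R i) ∨ (l[i]? = some 0 ∧ ¬ Acp P R i) := by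
  intro i
  induction i using Nat.strong_induction_on with
  | _ i ih =>
    intro hi
    rcases h i hi with ⟨h1, h2, h3⟩ | ⟨h1, h2⟩
    · refine Or.inl ⟨h1, acp_iff.2 ⟨h2, fun z hz hz' => ?_⟩⟩
      rcases h3 z hz with h4 | h4
      · rcases ih z hz (by omega) with ⟨h5, _⟩ | ⟨_, h6⟩
        · rw [h4] at h5; cases h5
        · exact absurd hz' h6
      · exact h4
    · refine Or.inr ⟨h1, fun hcc => ?_⟩
      obtain ⟨h3, h4⟩ := acp_iff.1 hcc
      rcases h2 with h2 | ⟨z, hz, h5, h6⟩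
      · exact h2 h3
      · rcases ih z hz (by omega) with ⟨_, h8⟩ | ⟨h7, _⟩
        · exact h6 (h4 z hz h8)
        · rw [h5] at h7; cases h7

open Classical in
theorem exists_hst (n : ℕ) : ∃ l, Hst P R n l := by
  set l : List ℕ := (List.range n).map (fun i => if Acp P R i then 1 else 0) with hl
  have hget : ∀ i < n, l[i]? = some (if Acp P R i then 1 else 0) := by
    intro i hi
    simp [hl, List.getElem?_map, List.getElem?_range hi]
  refine ⟨l, fun i hi => ?_⟩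
  by_cases h : Acp P R i
  · obtain ⟨h1, h2⟩ := acp_iff.1 h
    refine Or.inl ⟨by rw [hget i hi, if_pos h], h1, fun z hz => ?_⟩
    by_cases hz' : Acp P R z
    · exact Or.inr (h2 z hz hz')
    · exact Or.inl (by rw [hget z (by omega), if_neg hz'])
  · refine Or.inr ⟨by rw [hget i hi, if_neg h], ?_⟩
    by_contra hcon
    push Not at hcon
    apply h
    refine acp_iff.2 ⟨hcon.1, fun z hz hz' => hcon.2 z hz ?_⟩
    rw [hget z (by omega), if_pos hz']

theorem re_hst (hP : REIn A P) (hP' : REIn A fun x => ¬ P x)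
    (hR : REIn A fun x : ℕ × ℕ => R x.1 x.2) (hR' : REIn A fun x : ℕ × ℕ => ¬ R x.1 x.2) :
    REIn A fun x : ℕ × List ℕ => Hst P R x.1 x.2 := by
  unfold Hst
  refine REIn.all_lt (S := fun (x : ℕ × List ℕ) i =>
    (x.2[i]? = some 1 ∧ (P i ∧ ∀ z < i, (x.2[z]? = some 0 ∨ R z i))) ∨
    (x.2[i]? = some 0 ∧ (¬ P i ∨ ∃ z, z < i ∧ (x.2[z]? = some 1 ∧ ¬ R z i)))) ?_ (by fun_prop)
  refine REIn.or (REIn.and (REIn.of_re (RE.eq (by fun_prop) (by fun_prop))) (REIn.and ?_ ?_))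
    (REIn.and (REIn.of_re (RE.eq (by fun_prop) (by fun_prop))) (REIn.or ?_ ?_))
  · exact hP.comp (f := fun x : (ℕ × List ℕ) × ℕ => x.2) (by fun_prop)
  · refine REIn.all_lt (S := fun (x : (ℕ × List ℕ) × ℕ) z =>
      (x.1.2[z]? = some 0 ∨ R z x.2)) ?_ (by fun_prop)
    refine REIn.or (REIn.of_re (RE.eq (by fun_prop) (by fun_prop))) ?_
    exact hR.comp (f := fun x : ((ℕ × List ℕ) × ℕ) × ℕ => (x.2, x.1.2)) (by fun_prop)
  · exact hP'.comp (f := fun x : (ℕ × List ℕ) × ℕ => x.2) (by fun_prop)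
  · refine REIn.ex (S := fun (x : (ℕ × List ℕ) × ℕ) z =>
      z < x.2 ∧ (x.1.2[z]? = some 1 ∧ ¬ R z x.2)) ?_
    refine REIn.and (REIn.of_re (RE.lt (by fun_prop) (by fun_prop)))
      (REIn.and (REIn.of_re (RE.eq (by fun_prop) (by fun_prop))) ?_)
    exact hR'.comp (f := fun x : ((ℕ × List ℕ) × ℕ) × ℕ => (x.2, x.1.2)) (by fun_prop)

theorem greedyIn (hP : REIn A P) (hP' : REIn A fun x => ¬ P x)
    (hR : REIn A fun x : ℕ × ℕ => R x.1 x.2) (hR' : REIn A fun x : ℕ × ℕ => ¬ R x.1 x.2)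
    (hex : ∀ l : List ℕ, (∀ z ∈ l, P z) → ∀ b, ∃ x, b < x ∧ P x ∧ ∀ z ∈ l, R z x) :
    ∃ H : Set ℕ, (REIn A (· ∈ H) ∧ REIn A (· ∉ H)) ∧ H.Infinite ∧ (∀ x ∈ H, P x) ∧
      ∀ x ∈ H, ∀ y ∈ H, x < y → R x y := by
  have hH := re_hst hP hP' hR hR'
  refine ⟨{n | Acp P R n}, ⟨?_, ?_⟩, ?_, ?_, ?_⟩
  · have h : REIn A fun n : ℕ => ∃ l : List ℕ, Hst P R (n + 1) l ∧ l[n]? = some 1 := by
      refine REIn.ex (S := fun (n : ℕ) (l : List ℕ) => Hst P R (n + 1) l ∧ l[n]? = some 1) ?_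
      refine REIn.and ?_ (REIn.of_re (RE.eq (by fun_prop) (by fun_prop)))
      exact hH.comp (f := fun x : ℕ × List ℕ => (x.1 + 1, x.2)) (by fun_prop)
    refine h.of_eq fun n => ?_
    constructor
    · rintro ⟨l, h1, h2⟩
      rcases hst_spec h1 n (by omega) with ⟨_, h3⟩ | ⟨h3, _⟩
      · exact h3
      · rw [h2] at h3; cases h3
    · intro hn
      obtain ⟨l, hl⟩ := exists_hst (P := P) (R := R) (n + 1)
      rcases hst_spec hl n (by omega) with ⟨h3, _⟩ | ⟨_, h3⟩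
      · exact ⟨l, hl, h3⟩
      · exact absurd hn h3
  · have h : REIn A fun n : ℕ => ∃ l : List ℕ, Hst P R (n + 1) l ∧ l[n]? = some 0 := by
      refine REIn.ex (S := fun (n : ℕ) (l : List ℕ) => Hst P R (n + 1) l ∧ l[n]? = some 0) ?_
      refine REIn.and ?_ (REIn.of_re (RE.eq (by fun_prop) (by fun_prop)))
      exact hH.comp (f := fun x : ℕ × List ℕ => (x.1 + 1, x.2)) (by fun_prop)
    refine h.of_eq fun n => ?_
    constructor
    · rintro ⟨l, h1, h2⟩
      rcases hst_spec h1 n (by omega) with ⟨h3, _⟩ | ⟨_, h3⟩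
      · rw [h2] at h3; cases h3
      · exact h3
    · intro hn
      obtain ⟨l, hl⟩ := exists_hst (P := P) (R := R) (n + 1)
      rcases hst_spec hl n (by omega) with ⟨_, h3⟩ | ⟨h3, _⟩
      · exact absurd h3 hn
      · exact ⟨l, hl, h3⟩
  · intro hfin
    obtain ⟨B, hB⟩ := hfin.bddAbove
    obtain ⟨x, hx1, hx2, hx3⟩ := hex (accL P R (B + 1))
      (fun z hz => (mem_accL.1 hz).2.1) B
    have h1 : Acp P R x := by
      refine acp_iff.2 ⟨hx2, fun z _ hz' => hx3 z (mem_accL.2 ⟨?_, hz'⟩)⟩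
      have := hB (show z ∈ {n | Acp P R n} from hz')
      omega
    have := hB (show x ∈ {n | Acp P R n} from h1)
    omega
  · intro x hx
    exact hx.1
  · intro x hx y hy hxy
    exact (acp_iff.1 hy).2 x hxy hx

end Pool.Agent.Run7.h353.PS
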