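import Mathlib
import Pool.Agent.Run7.h353.PS.GreedyIn
import Pool.Agent.Run7.h353.PS.Arith
import Pool.Agent.H645R2.C3.Comp

/-! Stable colourings with two colours and sums of at most two terms. -/

namespace Pool.Agent.Run7.h353.PS

open Pool.Agent.Helper446 Pool.Agent.Helper446.RE Pool.Agent.Helper446.Oracle

/-- For every `n ≥ 1` there is `N` such that the colour of `n + y` is the same for all positive
multiples `y` of `b ^ N`. -/
def Stab {α : Type} (b : ℕ) (c : ℕ → α) : Prop :=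
  ∀ n, 1 ≤ n → ∃ N, ∀ y z, 0 < y → 0 < z → b ^ N ∣ y → b ^ N ∣ z → c (n + y) = c (n + z)

/-- `H` is an infinite set of positive integers all of whose elements and sums of two distinct
elements have the same colour. -/
def Sol {α : Type} (c : ℕ → α) (H : Set ℕ) : Prop :=
  H.Infinite ∧ 0 ∉ H ∧ ∃ i, (∀ x ∈ H, c x = i) ∧ ∀ x ∈ H, ∀ y ∈ H, x ≠ y → c (x + y) = i

section lim

variable {α : Type} {c : ℕ → α} {b : ℕ}

/-- The limit colours. -/
theorem exists_lim (hb : 0 < b) (h : Stab b c) : ∃ (ct : ℕ → α) (N : ℕ → ℕ),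
    (∀ n, 1 ≤ n → ∀ y, 0 < y → b ^ N n ∣ y → c (n + y) = ct n) ∧
    ∀ n, 1 ≤ n → ∀ y, b ^ N n ∣ y → ct (n + y) = ct n := by
  have h' : ∀ n, ∃ N, 1 ≤ n → ∀ y z, 0 < y → 0 < z → b ^ N ∣ y → b ^ N ∣ z →
      c (n + y) = c (n + z) := by
    intro n
    by_cases hn : 1 ≤ n
    · obtain ⟨N, hN⟩ := h n hn
      exact ⟨N, fun _ => hN⟩
    · exact ⟨0, fun h1 => absurd h1 hn⟩
  choose N hN using h'
  have h1 : ∀ n, 1 ≤ n → ∀ y, 0 < y → b ^ N n ∣ y → c (n + y) = c (n + b ^ N n) :=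
    fun n hn y hy hd => hN n hn y _ hy (by positivity) hd dvd_rfl
  refine ⟨fun n => c (n + b ^ N n), N, h1, ?_⟩
  intro n hn y hd
  have hpos : 0 < b ^ max (N n) (N (n + y)) := by positivity
  have h2 := h1 (n + y) (by omega) (b ^ max (N n) (N (n + y))) hpos
    (pow_dvd_pow b (le_max_right _ _))
  have h3 := h1 n hn (y + b ^ max (N n) (N (n + y))) (by omega)
    (dvd_add hd (pow_dvd_pow b (le_max_left _ _)))
  show c (n + y + b ^ N (n + y)) = c (n + b ^ N n)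
  rw [← h2, ← h3, add_assoc]

/-- The first case, explicitly. -/
theorem caseA' (hb : 0 < b) {ct : ℕ → α} {N : ℕ → ℕ}
    (h1 : ∀ n, 1 ≤ n → ∀ y, 0 < y → b ^ N n ∣ y → c (n + y) = ct n)
    {p : ℕ} (hp : 1 ≤ p) (hpp : ct (2 * p) = ct p) :
    ∃ M, Sol c {x | ∃ k, x = p + b ^ M * (k + 1)} := by
  set M := max (N p) (N (2 * p)) with hM
  have hbM : 0 < b ^ M := by positivity
  refine ⟨M, ?_, ?_, ct p, ?_, ?_⟩
  · refine Set.infinite_of_injective_forall_mem (f := fun k : ℕ => p + b ^ M * (k + 1)) ?_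
      (fun k => ⟨k, rfl⟩)
    intro a a' hab
    have h3 : b ^ M * (a + 1) = b ^ M * (a' + 1) := by
      have : p + b ^ M * (a + 1) = p + b ^ M * (a' + 1) := hab
      omega
    have h4 := Nat.eq_of_mul_eq_mul_left hbM h3
    omega
  · rintro ⟨k, hk⟩
    omega
  · rintro _ ⟨k, rfl⟩
    exact h1 p hp _ (by positivity) (Dvd.dvd.mul_right (pow_dvd_pow b (le_max_left _ _)) _)
  · rintro _ ⟨k, rfl⟩ _ ⟨l, rfl⟩ _
    have e : p + b ^ M * (k + 1) + (p + b ^ M * (l + 1)) = 2 * p + b ^ M * (k + l + 2) := by ring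
    rw [e, ← hpp]
    exact h1 (2 * p) (by omega) _ (by positivity)
      (Dvd.dvd.mul_right (pow_dvd_pow b (le_max_right _ _)) _)

theorem cp_ap (hb : 0 < b) (p M : ℕ) :
    ComputablePred (fun x => x ∈ {x : ℕ | ∃ k, x = p + b ^ M * (k + 1)}) := by
  have hbM : 0 < b ^ M := by positivity
  have h2 : PrimrecPred fun x : ℕ => p < x ∧ (x - p) % b ^ M = 0 := by
    refine PrimrecPred.and ?_ ?_
    · exact Primrec.nat_lt.comp (Primrec.const p) Primrec.id
    · exact Primrec.eq.comp (Primrec.nat_mod.comp (Primrec.nat_sub.comp Primrec.id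
        (Primrec.const p)) (Primrec.const (b ^ M))) (Primrec.const 0)
  have h3 : ComputablePred fun x : ℕ => p < x ∧ (x - p) % b ^ M = 0 := by
    obtain ⟨D, hD⟩ := h2
    exact ⟨D, hD.to_comp⟩
  refine h3.of_eq fun x => ?_
  constructor
  · rintro ⟨h4, h5⟩
    obtain ⟨t, ht⟩ := Nat.dvd_of_mod_eq_zero h5
    have ht0 : t ≠ 0 := by
      rintro rfl
      rw [mul_zero] at ht
      omega
    obtain ⟨k, rfl⟩ := Nat.exists_eq_succ_of_ne_zero ht0
    exact ⟨k, by rw [Nat.succ_eq_add_one] at ht; omega⟩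
  · rintro ⟨k, rfl⟩
    have : 0 < b ^ M * (k + 1) := by positivity
    refine ⟨by omega, ?_⟩
    rw [Nat.add_sub_cancel_left]
    exact Nat.mul_mod_right _ _

/-- The first case. -/
theorem caseA (hb : 0 < b) {ct : ℕ → α} {N : ℕ → ℕ}
    (h1 : ∀ n, 1 ≤ n → ∀ y, 0 < y → b ^ N n ∣ y → c (n + y) = ct n)
    {p : ℕ} (hp : 1 ≤ p) (hpp : ct (2 * p) = ct p) :
    ∃ H : Set ℕ, ComputablePred (fun x => x ∈ H) ∧ Sol c H := by
  obtain ⟨M, hM⟩ := caseA' hb h1 hp hpp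
  exact ⟨_, cp_ap hb p M, hM⟩

end lim

/-- A computable set is enumerable, with its complement, relative to every oracle. -/
theorem re_of_cp {A : Set ℕ} {H : Set ℕ} (h : ComputablePred (fun x => x ∈ H)) :
    REIn A (· ∈ H) ∧ REIn A (· ∉ H) :=
  ⟨REIn.of_re h.to_re, REIn.of_re h.not.to_re⟩

section two

variable {c : ℕ → Fin 2} {b : ℕ} {ct : ℕ → Fin 2} {N : ℕ → ℕ}

theorem ct_four (hB : ∀ p, 1 ≤ p → ct (2 * p) ≠ ct p) (j p : ℕ) (hp : 1 ≤ p) :
    ct (4 ^ j * p) = ct p := by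
  have h4 : ∀ p, 1 ≤ p → ct (4 * p) = ct p := by
    intro p hp
    have e1 := hB p hp
    have e2 := hB (2 * p) (by omega)
    have e : 2 * (2 * p) = 4 * p := by ring
    rw [e] at e2
    omega
  induction j generalizing p with
  | zero => simp
  | succ k ih =>
    have e : 4 ^ (k + 1) * p = 4 * (4 ^ k * p) := by rw [pow_succ]; ring
    rw [e, h4 _ (Nat.mul_pos (by positivity) hp), ih p hp]

/-- The rigidity of the limit colours for odd bases. -/
theorem rigid (hb : b % 2 = 1) {r D : ℕ} (hD : b ∣ D) (hr : 4 ^ r = 1 + D)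
    (hB : ∀ p, 1 ≤ p → ct (2 * p) ≠ ct p)
    (h2 : ∀ n, 1 ≤ n → ∀ y, b ^ N n ∣ y → ct (n + y) = ct n) (k e : ℕ) :
    ct (b ^ k * (1 + D * e)) = ct (b ^ k) := by
  have hbk : 0 < b ^ k := by
    have : 0 < b := by omega
    positivity
  obtain ⟨j, e', hj⟩ := orbit (b := b) (D := D) hb hD (u := 1 + D * e) ⟨e, rfl⟩ (N (b ^ k))
  have h3 := ct_four hB (r * j) (b ^ k * (1 + D * e)) (Nat.mul_pos hbk (by omega))
  rw [← h3, pow_mul, hr]
  have e1 : (1 + D) ^ j * (b ^ k * (1 + D * e)) = b ^ k + b ^ N (b ^ k) * (b ^ k * D * e') := by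
    calc (1 + D) ^ j * (b ^ k * (1 + D * e)) = b ^ k * ((1 + D) ^ j * (1 + D * e)) := by ring
      _ = _ := by rw [hj]; ring
  rw [e1]
  exact h2 _ hbk _ (Dvd.intro _ rfl)

end two

end Pool.Agent.Run7.h353.PS
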