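import Mathlib
import Pool.Agent.Run7.h353.PS.Stable

/-! Solutions of stable instances. -/

namespace Pool.Agent.Run7.h353.PS

open Pool.Agent.Helper446 Pool.Agent.Helper446.RE Pool.Agent.Helper446.Oracle

theorem pr_pow (b : ℕ) : Primrec (fun i : ℕ => b ^ i) := by
  have h : Primrec (fun i : ℕ => (Nat.rec (motive := fun _ => ℕ) 1 (fun _ r => r * b) i : ℕ)) :=
    Primrec.nat_rec₁ 1 (Primrec.nat_mul.comp Primrec.snd (Primrec.const b)).to₂
  refine h.of_eq fun i => ?_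
  induction i with
  | zero => rfl
  | succ i ih => rw [pow_succ, ← ih]

/-- The candidates for base two: `4 ^ k * (1 + 2 ^ d)` with `d ≥ D`. -/
def Cand2 (D x : ℕ) : Prop :=
  ∃ k, k < x + 1 ∧ ∃ d, d < x + 1 ∧ (x = 4 ^ k * (1 + 2 ^ d) ∧ D ≤ d)

theorem cand2_iff {D x : ℕ} : Cand2 D x ↔ ∃ k d, D ≤ d ∧ x = 4 ^ k * (1 + 2 ^ d) := by
  constructor
  · rintro ⟨k, _, d, _, h1, h2⟩
    exact ⟨k, d, h2, h1⟩
  · rintro ⟨k, d, h1, h2⟩
    have h3 : k < x := by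
      rw [h2]
      calc k < 4 ^ k := Nat.lt_pow_self (by norm_num)
        _ ≤ 4 ^ k * (1 + 2 ^ d) := Nat.le_mul_of_pos_right _ (by positivity)
    have h4 : d < x := by
      rw [h2]
      calc d < 2 ^ d := Nat.lt_pow_self (by norm_num)
        _ ≤ 1 + 2 ^ d := by omega
        _ ≤ 4 ^ k * (1 + 2 ^ d) := Nat.le_mul_of_pos_left _ (by positivity)
    exact ⟨k, by omega, d, by omega, h2, h1⟩

theorem pr_atom2 (D : ℕ) : PrimrecPred fun y : (ℕ × ℕ) × ℕ =>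
    y.1.1 = 4 ^ y.1.2 * (1 + 2 ^ y.2) ∧ D ≤ y.2 := by
  refine PrimrecPred.and ?_ ?_
  · refine Primrec.eq.comp (Primrec.fst.comp Primrec.fst) ?_
    refine Primrec.nat_mul.comp ((pr_pow 4).comp (Primrec.snd.comp Primrec.fst)) ?_
    exact Primrec.nat_add.comp (Primrec.const 1) ((pr_pow 2).comp Primrec.snd)
  · exact Primrec.nat_le.comp (Primrec.const D) Primrec.snd

theorem cp_of_pp {α : Type} [Primcodable α] {p : α → Prop} (h : PrimrecPred p) :
    ComputablePred p := by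
  obtain ⟨D, hD⟩ := h
  exact ⟨D, hD.to_comp⟩

variable {A : Set ℕ}

theorem re_cand2 (D : ℕ) : REIn A (fun x => Cand2 D x) ∧ REIn A (fun x => ¬ Cand2 D x) := by
  have h1 := cp_of_pp (pr_atom2 D)
  constructor
  · unfold Cand2
    refine REIn.ex (S := fun (x k : ℕ) => k < x + 1 ∧ ∃ d, d < x + 1 ∧
      (x = 4 ^ k * (1 + 2 ^ d) ∧ D ≤ d)) ?_
    refine REIn.and (REIn.of_re (RE.lt (by fun_prop) (by fun_prop))) ?_
    refine REIn.ex (S := fun (x : ℕ × ℕ) (d : ℕ) => d < x.1 + 1 ∧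
      (x.1 = 4 ^ x.2 * (1 + 2 ^ d) ∧ D ≤ d)) ?_
    exact REIn.and (REIn.of_re (RE.lt (by fun_prop) (by fun_prop))) (REIn.of_re h1.to_re)
  · have h : REIn A fun x : ℕ => ∀ k < x + 1, ∀ d < x + 1,
        ¬ (x = 4 ^ k * (1 + 2 ^ d) ∧ D ≤ d) := by
      refine REIn.all_lt (S := fun (x k : ℕ) => ∀ d < x + 1,
        ¬ (x = 4 ^ k * (1 + 2 ^ d) ∧ D ≤ d)) ?_ (by fun_prop)
      refine REIn.all_lt (S := fun (x : ℕ × ℕ) (d : ℕ) =>
        ¬ (x.1 = 4 ^ x.2 * (1 + 2 ^ d) ∧ D ≤ d)) ?_ (by fun_prop)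
      exact REIn.of_re h1.not.to_re
    refine h.of_eq fun x => ?_
    unfold Cand2
    push Not
    rfl

theorem fin2_ne (a i : Fin 2) : a = i + 1 ↔ ¬ a = i := by
  revert a i; decide

/-- A bound for finitely many moduli. -/
theorem exists_bd (N : ℕ → ℕ) (l : List ℕ) (b : ℕ) : ∃ K, b ≤ K ∧ ∀ z ∈ l, N z ≤ K := by
  induction l with
  | nil => exact ⟨b, le_rfl, by simp⟩
  | cons a l ih =>
    obtain ⟨K, h7, h8⟩ := ih
    refine ⟨max K (N a), le_max_of_le_left h7, fun z hz => ?_⟩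
    rcases List.mem_cons.1 hz with rfl | hz
    · exact le_max_right _ _
    · exact (h8 z hz).trans (le_max_left _ _)

variable {c : ℕ → Fin 2}

/-- The greedy construction for colourings. -/
theorem greedyCol (hc : ∀ i, REIn A fun x => c x = i) {Q : ℕ → Prop} (hQ : REIn A Q)
    (hQ' : REIn A fun x => ¬ Q x) (hQ0 : ∀ x, Q x → 0 < x) (e : Fin 2)
    (hex : ∀ l : List ℕ, (∀ z ∈ l, Q z) → ∀ b, ∃ x, b < x ∧ Q x ∧ c x = e ∧
      ∀ z ∈ l, c (z + x) = e) :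
    ∃ H : Set ℕ, (REIn A (· ∈ H) ∧ REIn A (· ∉ H)) ∧ Sol c H := by
  have hc' : REIn A fun x => ¬ c x = e := (hc (e + 1)).of_eq fun x => fin2_ne _ _
  obtain ⟨H, h1, h2, h3, h4⟩ := greedyIn (A := A) (P := fun x => Q x ∧ c x = e)
    (R := fun z x => c (z + x) = e) (hQ.and (hc e))
    ((hQ'.or hc').of_eq fun x => by tauto)
    ((hc e).comp (f := fun x : ℕ × ℕ => x.1 + x.2) (by fun_prop))
    (hc'.comp (f := fun x : ℕ × ℕ => x.1 + x.2) (by fun_prop))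
    (fun l hl b => by
      obtain ⟨x, k1, k2, k3, k4⟩ := hex l (fun z hz => (hl z hz).1) b
      exact ⟨x, k1, ⟨k2, k3⟩, k4⟩)
  refine ⟨H, h1, h2, ?_, e, fun x hx => (h3 x hx).2, fun x hx y hy hxy => ?_⟩
  · intro h0
    have := hQ0 0 (h3 0 h0).1
    omega
  · rcases lt_or_gt_of_ne hxy with h | h
    · exact h4 x hx y hy h
    · rw [add_comm]; exact h4 y hy x hx h

/-- **Base two.** -/
theorem base_two (hc : ∀ i, REIn A fun x => c x = i) (hs : Stab 2 c) :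
    ∃ H : Set ℕ, (REIn A (· ∈ H) ∧ REIn A (· ∉ H)) ∧ Sol c H := by
  obtain ⟨ct, N, h1, h2⟩ := exists_lim (by norm_num) hs
  by_cases hA : ∃ p, 1 ≤ p ∧ ct (2 * p) = ct p
  · obtain ⟨p, hp, hpp⟩ := hA
    obtain ⟨H, h3, h4⟩ := caseA (by norm_num) h1 hp hpp
    exact ⟨H, re_of_cp h3, h4⟩
  · push Not at hA
    have h6 : ∀ z, Cand2 (N 1) z → 1 ≤ z ∧ ct z = ct 1 := by
      intro z hz
      obtain ⟨k, d, hd, rfl⟩ := cand2_iff.1 hz
      refine ⟨Nat.mul_pos (by positivity) (by positivity), ?_⟩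
      rw [ct_four hA k _ (Nat.le_add_right 1 _)]
      exact h2 1 le_rfl _ (pow_dvd_pow 2 hd)
    refine greedyCol hc (re_cand2 (N 1)).1 (re_cand2 (N 1)).2 (fun x hx => (h6 x hx).1)
      (ct 1) ?_
    intro l hl b
    obtain ⟨K, hK, hK2⟩ := exists_bd N l b
    set d := max (N 1) (N (4 ^ K)) with hd
    have h9 : 0 < 4 ^ K * (1 + 2 ^ d) := by positivity
    refine ⟨4 ^ K * (1 + 2 ^ d), ?_, cand2_iff.2 ⟨K, d, le_max_left _ _, rfl⟩, ?_, ?_⟩
    · calc b ≤ K := hK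
        _ < 4 ^ K := Nat.lt_pow_self (by norm_num)
        _ ≤ 4 ^ K * (1 + 2 ^ d) := Nat.le_mul_of_pos_right _ (by positivity)
    · have e : 4 ^ K * (1 + 2 ^ d) = 4 ^ K + 4 ^ K * 2 ^ d := by ring
      have h10 := h1 (4 ^ K) (Nat.one_le_pow _ _ (by norm_num)) (4 ^ K * 2 ^ d) (by positivity)
        (Dvd.dvd.mul_left (pow_dvd_pow 2 (le_max_right _ _)) _)
      have h11 := ct_four hA K 1 le_rfl
      rw [mul_one] at h11
      rw [e, h10, h11]
    · intro z hz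
      obtain ⟨h10, h11⟩ := h6 z (hl z hz)
      have h13 : 2 ^ N z ∣ 4 ^ K := by
        have e4 : (4 : ℕ) ^ K = 2 ^ (2 * K) := by rw [pow_mul]; norm_num
        rw [e4]
        exact pow_dvd_pow 2 (by have := hK2 z hz; omega)
      rw [h1 z h10 (4 ^ K * (1 + 2 ^ d)) h9 (Dvd.dvd.mul_right h13 _), h11]

/-- The candidates for odd bases. -/
def Cand (b D : ℕ) (X : Set ℕ) (x : ℕ) : Prop :=
  ∃ k, k < x + 1 ∧ (k ∈ X ∧ ∃ u, u < x + 1 ∧ (x = b ^ k * u ∧ u % D = 1))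

theorem re_cand (b D : ℕ) {X : Set ℕ} (hX : REIn A (· ∈ X)) (hX' : REIn A (· ∉ X)) :
    REIn A (fun x => Cand b D X x) ∧ REIn A (fun x => ¬ Cand b D X x) := by
  have h1 : ComputablePred fun y : (ℕ × ℕ) × ℕ =>
      y.1.1 = b ^ y.1.2 * y.2 ∧ y.2 % D = 1 := by
    refine cp_of_pp (PrimrecPred.and ?_ ?_)
    · exact Primrec.eq.comp (Primrec.fst.comp Primrec.fst)
        (Primrec.nat_mul.comp ((pr_pow b).comp (Primrec.snd.comp Primrec.fst)) Primrec.snd)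
    · exact Primrec.eq.comp (Primrec.nat_mod.comp Primrec.snd (Primrec.const D))
        (Primrec.const 1)
  constructor
  · unfold Cand
    refine REIn.ex (S := fun (x k : ℕ) => k < x + 1 ∧ (k ∈ X ∧ ∃ u, u < x + 1 ∧
      (x = b ^ k * u ∧ u % D = 1))) ?_
    refine REIn.and (REIn.of_re (RE.lt (by fun_prop) (by fun_prop))) (REIn.and ?_ ?_)
    · exact hX.comp (f := fun x : ℕ × ℕ => x.2) (by fun_prop)
    refine REIn.ex (S := fun (x : ℕ × ℕ) (u : ℕ) => u < x.1 + 1 ∧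
      (x.1 = b ^ x.2 * u ∧ u % D = 1)) ?_
    exact REIn.and (REIn.of_re (RE.lt (by fun_prop) (by fun_prop))) (REIn.of_re h1.to_re)
  · have h : REIn A fun x : ℕ => ∀ k < x + 1, (k ∉ X ∨ ∀ u < x + 1,
        ¬ (x = b ^ k * u ∧ u % D = 1)) := by
      refine REIn.all_lt (S := fun (x k : ℕ) => (k ∉ X ∨ ∀ u < x + 1,
        ¬ (x = b ^ k * u ∧ u % D = 1))) ?_ (by fun_prop)
      refine REIn.or (hX'.comp (f := fun x : ℕ × ℕ => x.2) (by fun_prop)) ?_
      refine REIn.all_lt (S := fun (x : ℕ × ℕ) (u : ℕ) =>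
        ¬ (x.1 = b ^ x.2 * u ∧ u % D = 1)) ?_ (by fun_prop)
      exact REIn.of_re h1.not.to_re
    refine h.of_eq fun x => ?_
    unfold Cand
    constructor
    · rintro h2 ⟨k, hk, hkX, u, hu, h3⟩
      rcases h2 k hk with h4 | h4
      · exact h4 hkX
      · exact h4 u hu h3
    · intro h2 k hk
      by_cases hkX : k ∈ X
      · exact Or.inr fun u hu h3 => h2 ⟨k, hk, hkX, u, hu, h3⟩
      · exact Or.inl hkX

/-- **Odd bases.** -/
theorem base_odd {b : ℕ} (hb3 : 3 ≤ b) (hb : b % 2 = 1) (hc : ∀ i, REIn A fun x => c x = i)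
    (hs : Stab b c) {X : Set ℕ} (hXinf : X.Infinite) {e : Fin 2}
    (hXh : ∀ x ∈ X, ∀ y ∈ X, x < y → c (b ^ x + b ^ y) = e)
    (hX : REIn A (· ∈ X)) (hX' : REIn A (· ∉ X)) :
    ∃ H : Set ℕ, (REIn A (· ∈ H) ∧ REIn A (· ∉ H)) ∧ Sol c H := by
  obtain ⟨ct, N, h1, h2⟩ := exists_lim (by omega) hs
  by_cases hA : ∃ p, 1 ≤ p ∧ ct (2 * p) = ct p
  · obtain ⟨p, hp, hpp⟩ := hA
    obtain ⟨H, h3, h4⟩ := caseA (by omega) h1 hp hpp
    exact ⟨H, re_of_cp h3, h4⟩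
  · push Not at hA
    obtain ⟨r, D, hD, hD3, hr⟩ := exists_D hb
    have hb0 : 0 < b := by omega
    have hpow : ∀ k, 1 ≤ b ^ k := fun k => Nat.one_le_pow _ _ hb0
    have hctX : ∀ k ∈ X, ct (b ^ k) = e := by
      intro k hk
      obtain ⟨y, hy, hyk⟩ := hXinf.exists_gt (max k (N (b ^ k)))
      rw [← h1 (b ^ k) (hpow k) (b ^ y) (hpow y) (pow_dvd_pow b
        ((le_max_right _ _).trans hyk.le))]
      exact hXh k hk y hy (lt_of_le_of_lt (le_max_left _ _) hyk)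
    have h6 : ∀ z, Cand b D X z → 1 ≤ z ∧ ct z = e := by
      rintro z ⟨k, _, hk, u, _, rfl, hu⟩
      have hu' : u = 1 + D * (u / D) := by
        have := Nat.div_add_mod u D
        omega
      have hupos : 0 < u := by omega
      refine ⟨Nat.mul_pos (hpow k) hupos, ?_⟩
      rw [hu', rigid hb hD hr hA h2]
      exact hctX k hk
    refine greedyCol hc (re_cand b D hX hX').1 (re_cand b D hX hX').2
      (fun x hx => (h6 x hx).1) e ?_
    intro l hl B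
    obtain ⟨K, hK, hK2⟩ := exists_bd N l B
    obtain ⟨k, hk, hkK⟩ := hXinf.exists_gt K
    set m := N (b ^ k) with hm
    have hpos : 0 < b ^ k * (1 + D * b ^ m) := Nat.mul_pos (hpow k) (by omega)
    have hkb : k < b ^ k := Nat.lt_pow_self (by omega)
    have hle : b ^ k ≤ b ^ k * (1 + D * b ^ m) := Nat.le_mul_of_pos_right _ (by omega)
    have hD0 : 0 < D := by omega
    refine ⟨b ^ k * (1 + D * b ^ m), by omega, ⟨k, by omega, hk, 1 + D * b ^ m, ?_, rfl, ?_⟩,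
      ?_, ?_⟩
    · have : 1 + D * b ^ m ≤ b ^ k * (1 + D * b ^ m) := Nat.le_mul_of_pos_left _ (hpow k)
      omega
    · rw [Nat.add_mul_mod_self_left, Nat.mod_eq_of_lt (by omega)]
    · have e1 : b ^ k * (1 + D * b ^ m) = b ^ k + b ^ m * (b ^ k * D) := by ring
      have hy : 0 < b ^ m * (b ^ k * D) := by positivity
      rw [e1, h1 _ (hpow k) _ hy (Dvd.intro _ rfl)]
      exact hctX k hk
    · intro z hz
      obtain ⟨h10, h11⟩ := h6 z (hl z hz)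
      rw [h1 z h10 _ hpos (Dvd.dvd.mul_right (pow_dvd_pow b (by
        have := hK2 z hz
        omega)) _), h11]

end Pool.Agent.Run7.h353.PS
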