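import Mathlib
import Pool.Agent.Run7.h353.PS.Reduce
import Pool.Agent.Run7.h353.PS.Cyc

/-! Stable colourings of pairs are coded by stable colourings of numbers. -/

namespace Pool.Agent.Run7.h353.PS

open Pool.Agent.Helper446 Pool.Agent.Helper446.RE Pool.Agent.Helper446.Oracle

/-- `n = q ^ k * u` with `q` not dividing `u`. -/
def IsV (q n k u : ℕ) : Prop := n = q ^ k * u ∧ u % q ≠ 0

theorem IsV.uniq {q n k u k' u' : ℕ} (hq : 1 < q) (h : IsV q n k u) (h' : IsV q n k' u') :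
    k = k' ∧ u = u' := by
  have key : ∀ {k u k' u' : ℕ}, IsV q n k u → IsV q n k' u' → k ≤ k' := by
    intro k u k' u' h h'
    by_contra hc
    push Not at hc
    obtain ⟨j, rfl⟩ := Nat.exists_eq_add_of_lt hc
    apply h'.2
    have h1 := h.1.symm.trans h'.1
    have e : q ^ (k' + j + 1) * u = q ^ k' * (q * (q ^ j * u)) := by
      rw [pow_succ, pow_add]; ring
    rw [e] at h1
    have h2 := Nat.eq_of_mul_eq_mul_left (by positivity) h1
    rw [← h2]
    exact Nat.mul_mod_right _ _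
  have h1 : k = k' := le_antisymm (key h h') (key h' h)
  subst h1
  exact ⟨rfl, Nat.eq_of_mul_eq_mul_left (by positivity) (h.1.symm.trans h'.1)⟩

theorem IsV.pos {q n k u : ℕ} (hq : 1 < q) (h : IsV q n k u) : 0 < n := by
  rw [h.1]
  refine Nat.mul_pos (by positivity) ?_
  rcases Nat.eq_zero_or_pos u with h0 | h0
  · exact absurd (by rw [h0]; simp) h.2
  · exact h0

theorem exists_isV {q n : ℕ} (hq : 1 < q) (hn : 0 < n) : ∃ k u, IsV q n k u := by
  obtain ⟨k, u, h1, h2⟩ := Nat.exists_eq_pow_mul_and_not_dvd hn.ne' q hq.ne'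
  exact ⟨k, u, h2, fun h => h1 (Nat.dvd_of_mod_eq_zero h)⟩

/-- Adding a multiple of a higher power. -/
theorem IsV.add {q n k u y : ℕ} (h : IsV q n k u) (hy : q ^ (k + 1) ∣ y) :
    ∃ w, IsV q (n + y) k (u + q * w) := by
  obtain ⟨w, rfl⟩ := hy
  refine ⟨w, ?_, ?_⟩
  · rw [h.1, pow_succ]; ring
  · rw [Nat.add_mul_mod_self_left]
    exact h.2

open Classical in
/-- The colouring of numbers attached to a colouring of pairs. -/
noncomputable def colG (q : ℕ) (d : ℕ → Fin 2) (g : ℕ → ℕ → Fin 2) (n : ℕ) : Fin 2 :=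
  if h : ∃ p : ℕ × ℕ, IsV q n p.1 p.2 then
    d (Classical.choose h).2 + g (Classical.choose h).1 (Nat.log q n) else 0

theorem colG_eq {q : ℕ} (hq : 1 < q) {d : ℕ → Fin 2} {g : ℕ → ℕ → Fin 2} {n k u : ℕ}
    (h : IsV q n k u) : colG q d g n = d u + g k (Nat.log q n) := by
  have hex : ∃ p : ℕ × ℕ, IsV q n p.1 p.2 := ⟨(k, u), h⟩
  have h1 := IsV.uniq hq (Classical.choose_spec hex) h
  unfold colG
  rw [dif_pos hex, h1.1, h1.2]

variable {A : Set ℕ} {q : ℕ} {d : ℕ → Fin 2} {g : ℕ → ℕ → Fin 2}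

theorem cp_isV (q : ℕ) : ComputablePred fun y : ℕ × ℕ × ℕ => IsV q y.1 y.2.1 y.2.2 := by
  unfold IsV
  refine cp_of_pp (PrimrecPred.and ?_ (PrimrecPred.not ?_))
  · exact Primrec.eq.comp Primrec.fst (Primrec.nat_mul.comp ((pr_pow q).comp
      (Primrec.fst.comp Primrec.snd)) (Primrec.snd.comp Primrec.snd))
  · exact Primrec.eq.comp (Primrec.nat_mod.comp (Primrec.snd.comp Primrec.snd)
      (Primrec.const q)) (Primrec.const 0)

theorem re_d (hq : 1 < q) (hd : ∀ u, d (u % q) = d u) (i : Fin 2) :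
    REPred fun u : ℕ => d u = i := by
  classical
  have h1 : REPred fun u : ℕ => u % q ∈ (List.range q).filter (fun r => d r = i) := by
    refine RE.mem_list (f := fun u : ℕ => u % q)
      (l := fun _ => (List.range q).filter (fun r => d r = i)) ?_ (Computable.const _)
    exact (Primrec.nat_mod.comp Primrec.id (Primrec.const q)).to_comp
  refine h1.of_eq fun u => ?_
  rw [List.mem_filter, List.mem_range, decide_eq_true_iff, hd]
  exact ⟨fun h => h.2, fun h => ⟨Nat.mod_lt _ (by omega), h⟩⟩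

theorem cp_log (q : ℕ) : ComputablePred fun y : ℕ × ℕ => q ^ y.2 ≤ y.1 ∧ y.1 < q ^ (y.2 + 1) := by
  refine cp_of_pp (PrimrecPred.and ?_ ?_)
  · exact Primrec.nat_le.comp ((pr_pow q).comp Primrec.snd) Primrec.fst
  · exact Primrec.nat_lt.comp Primrec.fst ((pr_pow q).comp (Primrec.succ.comp Primrec.snd))

theorem log_iff {n t : ℕ} (hq : 1 < q) (hn : 0 < n) :
    (q ^ t ≤ n ∧ n < q ^ (t + 1)) ↔ Nat.log q n = t := by
  constructor
  · rintro ⟨h1, h2⟩
    exact Nat.log_eq_of_pow_le_of_lt_pow h1 h2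
  · rintro rfl
    exact ⟨Nat.pow_log_le_self q hn.ne', Nat.lt_pow_succ_log_self hq n⟩

theorem fin2_a (i : Fin 2) : 1 + (i + 1) = i := by revert i; decide

theorem fin2_b (i x : Fin 2) (h : 1 + x = i) : x = i + 1 := by revert i x; decide

theorem re_colG (hq : 1 < q) (hd : ∀ u, d (u % q) = d u)
    (hg : ∀ i, REIn A fun x : ℕ × ℕ => g x.1 x.2 = i) (i : Fin 2) :
    REIn A fun n => colG q d g n = i := by
  have hB : ∀ a e : Fin 2, REIn A fun n : ℕ => ∃ k u t, IsV q n k u ∧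
      ((q ^ t ≤ n ∧ n < q ^ (t + 1)) ∧ (d u = a ∧ g k t = e)) := by
    intro a e
    refine REIn.ex (S := fun (n k : ℕ) => ∃ u t, IsV q n k u ∧
      ((q ^ t ≤ n ∧ n < q ^ (t + 1)) ∧ (d u = a ∧ g k t = e))) ?_
    refine REIn.ex (S := fun (x : ℕ × ℕ) (u : ℕ) => ∃ t, IsV q x.1 x.2 u ∧
      ((q ^ t ≤ x.1 ∧ x.1 < q ^ (t + 1)) ∧ (d u = a ∧ g x.2 t = e))) ?_
    refine REIn.ex (S := fun (x : (ℕ × ℕ) × ℕ) (t : ℕ) => IsV q x.1.1 x.1.2 x.2 ∧
      ((q ^ t ≤ x.1.1 ∧ x.1.1 < q ^ (t + 1)) ∧ (d x.2 = a ∧ g x.1.2 t = e))) ?_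
    refine REIn.and (REIn.of_re ?_) (REIn.and (REIn.of_re ?_) (REIn.and (REIn.of_re ?_) ?_))
    · exact RE.comp (cp_isV q).to_re
        (f := fun x : ((ℕ × ℕ) × ℕ) × ℕ => (x.1.1.1, x.1.1.2, x.1.2)) (by fun_prop)
    · exact RE.comp (cp_log q).to_re
        (f := fun x : ((ℕ × ℕ) × ℕ) × ℕ => (x.1.1.1, x.2)) (by fun_prop)
    · exact RE.comp (re_d hq hd a) (f := fun x : ((ℕ × ℕ) × ℕ) × ℕ => x.1.2) (by fun_prop)
    · exact (hg e).comp (f := fun x : ((ℕ × ℕ) × ℕ) × ℕ => (x.1.1.2, x.2)) (by fun_prop)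
  have h0 : REIn A fun n : ℕ => n = 0 ∧ (0 : Fin 2) = i :=
    REIn.and (REIn.of_re (RE.eq (by fun_prop) (by fun_prop))) (REIn.of_re (RE.const _))
  refine (((hB 0 i).or (hB 1 (i + 1))).or h0).of_eq fun n => ?_
  have hz : ∀ k u, ¬ IsV q 0 k u := fun k u h => absurd h.pos (by simpa using hq)
  constructor
  · rintro ((⟨k, u, t, h1, h2, h3, h4⟩ | ⟨k, u, t, h1, h2, h3, h4⟩) | ⟨rfl, h1⟩)
    · rw [colG_eq hq h1, (log_iff hq (h1.pos hq)).1 h2, h3, h4, zero_add]
    · rw [colG_eq hq h1, (log_iff hq (h1.pos hq)).1 h2, h3, h4]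
      exact fin2_a i
    · unfold colG
      rw [dif_neg, h1]
      rintro ⟨p, hp⟩
      exact absurd (hp.pos hq) (by omega)
  · intro h
    rcases Nat.eq_zero_or_pos n with rfl | hn
    · right
      refine ⟨rfl, ?_⟩
      unfold colG at h
      rwa [dif_neg] at h
      rintro ⟨p, hp⟩
      exact absurd (hp.pos hq) (by omega)
    · left
      obtain ⟨k, u, hV⟩ := exists_isV hq hn
      rw [colG_eq hq hV] at h
      have hlog := (log_iff hq hn (t := Nat.log q n)).2 rfl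
      have h01 : ∀ a : Fin 2, a = 0 ∨ a = 1 := by decide
      rcases h01 (d u) with h1 | h1
      · left
        refine ⟨k, u, _, hV, hlog, h1, ?_⟩
        rw [h1, zero_add] at h
        exact h
      · right
        refine ⟨k, u, _, hV, hlog, h1, ?_⟩
        rw [h1] at h
        exact fin2_b _ _ h

/-- Stability. -/
theorem stab_colG {b : ℕ} (hq : 1 < q) (hqb : q ∣ b) (hd : ∀ u, d (u % q) = d u)
    (hg : ∀ k, ∃ i s, ∀ t, s ≤ t → g k t = i) : Stab b (colG q d g) := by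
  intro n hn
  obtain ⟨k, u, hV⟩ := exists_isV hq hn
  obtain ⟨i, s, hs⟩ := hg k
  refine ⟨k + 1 + s, ?_⟩
  have key : ∀ y, 0 < y → b ^ (k + 1 + s) ∣ y → colG q d g (n + y) = d u + i := by
    intro y hy hdvd
    have h1 : q ^ (k + 1) ∣ y := (pow_dvd_pow_of_dvd hqb _).trans
      ((pow_dvd_pow b (by omega)).trans hdvd)
    have h1' : q ^ s ≤ y := by
      refine Nat.le_of_dvd hy ((pow_dvd_pow_of_dvd hqb _).trans ?_)
      exact (pow_dvd_pow b (by omega)).trans hdvd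
    obtain ⟨w, hw⟩ := hV.add h1
    rw [colG_eq hq hw, hs _ ?_, ← hd (u + q * w), Nat.add_mul_mod_self_left, hd]
    exact Nat.le_log_of_pow_le hq (by omega)
  intro y z hy hz hdy hdz
  rw [key y hy hdy, key z hz hdz]

end Pool.Agent.Run7.h353.PS
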