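import Mathlib
import Pool.Agent.Run7.h353.PS.Lower

/-! Homogeneous sets for pairs from solutions. -/

namespace Pool.Agent.Run7.h353.PS

open Pool.Agent.Helper446 Pool.Agent.Helper446.RE Pool.Agent.Helper446.Oracle

variable {A : Set ℕ} {q : ℕ} {d : ℕ → Fin 2} {g : ℕ → ℕ → Fin 2}

theorem fin2_c (a l e : Fin 2) (h : a + l = e) : l = e + a := by revert a l e; decide

theorem fin2_d (a l : Fin 2) : ¬ (a + 1 + l = a + l) := by revert a l; decide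

theorem exists_stage' (hg : ∀ k, ∃ i s, ∀ t, s ≤ t → g k t = i) :
    ∃ (Lm : ℕ → Fin 2) (s : ℕ → ℕ), ∀ k t, s k ≤ t → g k t = Lm k := by
  choose Lm s h using hg
  exact ⟨Lm, s, h⟩

theorem extract (hq : 1 < q) (hq2 : q % 2 = 1) (hd : ∀ u, d (u % q) = d u)
    (hdd : ∀ u, u % q ≠ 0 → d (2 * u) = d u + 1) (hg : ∀ k, ∃ i s, ∀ t, s ≤ t → g k t = i)
    {H : Set ℕ} (hH : Sol (colG q d g) H) (hH1 : REIn A (· ∈ H)) (hH2 : REIn A (· ∉ H))
    (hgr : ∀ i, REIn A fun x : ℕ × ℕ => g x.1 x.2 = i) :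
    ∃ X : Set ℕ, X.Infinite ∧ (REIn A (· ∈ X) ∧ REIn A (· ∉ X)) ∧
      ∃ e, ∀ x ∈ X, ∀ y ∈ X, x < y → g x y = e := by
  obtain ⟨hinf, h0, e, he1, he2⟩ := hH
  obtain ⟨Lm, s, hLs⟩ := exists_stage' hg
  have hpos : ∀ x ∈ H, 0 < x := fun x hx => by
    rcases Nat.eq_zero_or_pos x with h | h
    · rw [h] at hx; exact absurd hx h0
    · exact h
  -- unbounded valuations
  have hun : ∀ K, ∃ x ∈ H, ∃ k u, IsV q x k u ∧ K < k := by
    intro K
    by_contra hcon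
    push Not at hcon
    have hv : ∀ x, ∃ k u, x ∈ H → IsV q x k u := by
      intro x
      by_cases hx : x ∈ H
      · obtain ⟨k, u, h⟩ := exists_isV hq (hpos x hx)
        exact ⟨k, u, fun _ => h⟩
      · exact ⟨0, 0, fun h => absurd h hx⟩
    choose v w hvw using hv
    obtain ⟨B, hB⟩ : ∃ B, ∀ k ≤ K, s k ≤ B := by
      obtain ⟨B, _, hB⟩ := exists_bd s (List.range (K + 1)) 0
      exact ⟨B, fun k hk => hB k (List.mem_range.2 (by omega))⟩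
    have hinf2 : {x | x ∈ H ∧ q ^ B ≤ x}.Infinite := by
      intro hfin
      apply hinf
      refine (hfin.union (Set.finite_Iio (q ^ B))).subset fun x hx => ?_
      rcases Nat.lt_or_ge x (q ^ B) with h | h
      · exact Or.inr h
      · exact Or.inl ⟨hx, h⟩
    obtain ⟨x, hx, y, hy, hxy, hres⟩ := hinf2.exists_ne_map_eq_of_mapsTo
      (f := fun x => (v x, w x % q)) (t := Set.Iic K ×ˢ Set.Iio q)
      (fun x hx => ⟨hcon x hx.1 _ _ (hvw x hx.1), Nat.mod_lt _ (by omega)⟩)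
      ((Set.finite_Iic _).prod (Set.finite_Iio _))
    have h1 := hvw x hx.1
    have h2 := hvw y hy.1
    simp only [Prod.mk.injEq] at hres
    obtain ⟨hv', hw'⟩ := hres
    rw [← hv'] at h2
    set k := v x with hk
    have hkK : k ≤ K := hcon x hx.1 _ _ h1
    have hsum : x + y = q ^ k * (w x + w y) := by rw [mul_add, ← h1.1, ← h2.1]
    have hmod : (w x + w y) % q = (2 * w x) % q := by
      rw [Nat.add_mod, ← hw', ← Nat.add_mod, two_mul]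
    have hne : (2 * w x) % q ≠ 0 := by
      intro hz
      have h3 : q ∣ 2 * w x := Nat.dvd_of_mod_eq_zero hz
      have h4 : Nat.Coprime q 2 := (Nat.coprime_two_right).2 (Nat.odd_iff.2 hq2)
      exact h1.2 (Nat.mod_eq_zero_of_dvd (h4.dvd_of_dvd_mul_left h3))
    have hV : IsV q (x + y) k (w x + w y) := ⟨hsum, by rw [hmod]; exact hne⟩
    have e1 := he1 x hx.1
    have e2 := he2 x hx.1 y hy.1 hxy
    rw [colG_eq hq h1, hLs k _ ((hB k hkK).trans (Nat.le_log_of_pow_le hq hx.2))] at e1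
    rw [colG_eq hq hV, ← hd (w x + w y), hmod, hd, hdd _ h1.2,
      hLs k _ ((hB k hkK).trans (Nat.le_log_of_pow_le hq (hx.2.trans (Nat.le_add_right _ _))))]
      at e2
    exact fin2_d _ _ (e2.trans e1.symm)
  -- the limits
  have hlim : ∀ x ∈ H, ∀ k u, IsV q x k u → Lm k = e + d u := by
    intro x hx k u hV
    obtain ⟨y, hy, k', u', hV', hk'⟩ := hun (max (k + 1) (s k))
    have h1 : q ^ (k + 1) ∣ y := by
      rw [hV'.1]
      exact Dvd.dvd.mul_right (pow_dvd_pow q (by omega)) _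
    have h2 : q ^ s k ≤ y := by
      refine Nat.le_of_dvd (hpos y hy) ?_
      rw [hV'.1]
      exact Dvd.dvd.mul_right (pow_dvd_pow q (by omega)) _
    obtain ⟨w, hw⟩ := hV.add h1
    have hxy : x ≠ y := by
      rintro rfl
      have := (hV.uniq hq hV').1
      omega
    have e2 := he2 x hx y hy hxy
    rw [colG_eq hq hw, ← hd (u + q * w), Nat.add_mul_mod_self_left, hd,
      hLs k _ (Nat.le_log_of_pow_le hq (h2.trans (Nat.le_add_left _ _)))] at e2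
    exact fin2_c _ _ _ e2
  -- the digit
  obtain ⟨δ, hδ⟩ : ∃ δ : Fin 2, ∀ K, ∃ x ∈ H, ∃ k u, IsV q x k u ∧ K < k ∧ d u = δ := by
    by_contra hcon
    push Not at hcon
    obtain ⟨K0, hK0⟩ := hcon 0
    obtain ⟨K1, hK1⟩ := hcon 1
    obtain ⟨x, hx, k, u, hV, hk⟩ := hun (max K0 K1)
    have h01 : ∀ a : Fin 2, a = 0 ∨ a = 1 := by decide
    rcases h01 (d u) with h | h
    · exact hK0 x hx k u hV (by omega) h
    · exact hK1 x hx k u hV (by omega) h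
  set η : Fin 2 := e + δ with hη
  -- relative enumerability
  have hIs := cp_isV q
  have hx0 : REIn A fun x : ℕ => x = 0 := REIn.of_re (RE.eq (by fun_prop) (by fun_prop))
  have hPd : ∀ a : Fin 2, REIn A fun x : ℕ => ∃ k u, IsV q x k u ∧ d u = a := by
    intro a
    refine REIn.ex (S := fun (x k : ℕ) => ∃ u, IsV q x k u ∧ d u = a) ?_
    refine REIn.ex (S := fun (x : ℕ × ℕ) (u : ℕ) => IsV q x.1 x.2 u ∧ d u = a) ?_
    refine REIn.and (REIn.of_re ?_) (REIn.of_re ?_)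
    · exact RE.comp hIs.to_re (f := fun x : (ℕ × ℕ) × ℕ => (x.1.1, x.1.2, x.2)) (by fun_prop)
    · exact RE.comp (re_d hq hd a) (f := fun x : (ℕ × ℕ) × ℕ => x.2) (by fun_prop)
  have hz : ∀ k u, ¬ IsV q 0 k u := fun k u h => absurd (h.pos hq) (by omega)
  have hP : REIn A fun x : ℕ => x ∈ H ∧ ∃ k u, IsV q x k u ∧ d u = δ := hH1.and (hPd δ)
  have hP' : REIn A fun x : ℕ => ¬ (x ∈ H ∧ ∃ k u, IsV q x k u ∧ d u = δ) := by
    refine (hH2.or (hx0.or (hPd (δ + 1)))).of_eq fun x => ?_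
    constructor
    · rintro (h | rfl | ⟨k, u, h1, h2⟩) ⟨h3, k', u', h4, h5⟩
      · exact h h3
      · exact hz _ _ h4
      · rw [(h1.uniq hq h4).2, h5] at h2
        revert h2
        exact fun h2 => (fin2_ne δ δ).1 h2 rfl
    · intro h
      by_cases hx : x ∈ H
      · right
        rcases Nat.eq_zero_or_pos x with h1 | h1
        · exact Or.inl h1
        · right
          obtain ⟨k, u, hV⟩ := exists_isV hq h1
          refine ⟨k, u, hV, (fin2_ne _ _).2 fun h2 => h ⟨hx, k, u, hV, h2⟩⟩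
      · exact Or.inl hx
  have hRg : ∀ i : Fin 2, REIn A fun x : ℕ × ℕ => ∃ k u k' u', IsV q x.1 k u ∧ (IsV q x.2 k' u' ∧
      (k < k' ∧ g k k' = i)) := by
    intro i
    refine REIn.ex (S := fun (x : ℕ × ℕ) (k : ℕ) => ∃ u k' u', IsV q x.1 k u ∧ (IsV q x.2 k' u' ∧
      (k < k' ∧ g k k' = i))) ?_
    refine REIn.ex (S := fun (x : (ℕ × ℕ) × ℕ) (u : ℕ) => ∃ k' u', IsV q x.1.1 x.2 u ∧
      (IsV q x.1.2 k' u' ∧ (x.2 < k' ∧ g x.2 k' = i))) ?_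
    refine REIn.ex (S := fun (x : ((ℕ × ℕ) × ℕ) × ℕ) (k' : ℕ) => ∃ u', IsV q x.1.1.1 x.1.2 x.2 ∧
      (IsV q x.1.1.2 k' u' ∧ (x.1.2 < k' ∧ g x.1.2 k' = i))) ?_
    refine REIn.ex (S := fun (x : (((ℕ × ℕ) × ℕ) × ℕ) × ℕ) (u' : ℕ) =>
      IsV q x.1.1.1.1 x.1.1.2 x.1.2 ∧ (IsV q x.1.1.1.2 x.2 u' ∧
      (x.1.1.2 < x.2 ∧ g x.1.1.2 x.2 = i))) ?_
    refine REIn.and (REIn.of_re ?_) (REIn.and (REIn.of_re ?_) (REIn.and (REIn.of_re ?_) ?_))
    · exact RE.comp hIs.to_re (f := fun x : ((((ℕ × ℕ) × ℕ) × ℕ) × ℕ) × ℕ =>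
        (x.1.1.1.1.1, x.1.1.1.2, x.1.1.2)) (by fun_prop)
    · exact RE.comp hIs.to_re (f := fun x : ((((ℕ × ℕ) × ℕ) × ℕ) × ℕ) × ℕ =>
        (x.1.1.1.1.2, x.1.2, x.2)) (by fun_prop)
    · exact RE.lt (by fun_prop) (by fun_prop)
    · exact (hgr i).comp (f := fun x : ((((ℕ × ℕ) × ℕ) × ℕ) × ℕ) × ℕ =>
        (x.1.1.1.2, x.1.2)) (by fun_prop)
  have hRle : REIn A fun x : ℕ × ℕ => ∃ k u k' u', IsV q x.1 k u ∧ (IsV q x.2 k' u' ∧ k' ≤ k) := by
    refine REIn.ex (S := fun (x : ℕ × ℕ) (k : ℕ) => ∃ u k' u', IsV q x.1 k u ∧ (IsV q x.2 k' u' ∧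
      k' ≤ k)) ?_
    refine REIn.ex (S := fun (x : (ℕ × ℕ) × ℕ) (u : ℕ) => ∃ k' u', IsV q x.1.1 x.2 u ∧
      (IsV q x.1.2 k' u' ∧ k' ≤ x.2)) ?_
    refine REIn.ex (S := fun (x : ((ℕ × ℕ) × ℕ) × ℕ) (k' : ℕ) => ∃ u', IsV q x.1.1.1 x.1.2 x.2 ∧
      (IsV q x.1.1.2 k' u' ∧ k' ≤ x.1.2)) ?_
    refine REIn.ex (S := fun (x : (((ℕ × ℕ) × ℕ) × ℕ) × ℕ) (u' : ℕ) =>
      IsV q x.1.1.1.1 x.1.1.2 x.1.2 ∧ (IsV q x.1.1.1.2 x.2 u' ∧ x.2 ≤ x.1.1.2)) ?_
    refine REIn.and (REIn.of_re ?_) (REIn.and (REIn.of_re ?_) (REIn.of_re ?_))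
    · exact RE.comp hIs.to_re (f := fun x : ((((ℕ × ℕ) × ℕ) × ℕ) × ℕ) × ℕ =>
        (x.1.1.1.1.1, x.1.1.1.2, x.1.1.2)) (by fun_prop)
    · exact RE.comp hIs.to_re (f := fun x : ((((ℕ × ℕ) × ℕ) × ℕ) × ℕ) × ℕ =>
        (x.1.1.1.1.2, x.1.2, x.2)) (by fun_prop)
    · exact RE.le (by fun_prop) (by fun_prop)
  have hR' : REIn A fun x : ℕ × ℕ => ¬ ∃ k u k' u', IsV q x.1 k u ∧ (IsV q x.2 k' u' ∧
      (k < k' ∧ g k k' = η)) := by
    have hx01 : REIn A fun x : ℕ × ℕ => x.1 = 0 :=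
      hx0.comp (f := fun x : ℕ × ℕ => x.1) (by fun_prop)
    have hx02 : REIn A fun x : ℕ × ℕ => x.2 = 0 :=
      hx0.comp (f := fun x : ℕ × ℕ => x.2) (by fun_prop)
    refine ((hx01.or hx02).or (hRle.or (hRg (η + 1)))).of_eq fun x => ?_
    constructor
    · rintro ((h | h) | (⟨k, u, k', u', h1, h2, h3⟩ | ⟨k, u, k', u', h1, h2, h3, h4⟩))
        ⟨l, w, l', w', m1, m2, m3, m4⟩
      · rw [h] at m1; exact hz _ _ m1
      · rw [h] at m2; exact hz _ _ m2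
      · have := (h1.uniq hq m1).1
        have := (h2.uniq hq m2).1
        omega
      · rw [(h1.uniq hq m1).1, (h2.uniq hq m2).1, m4] at h4
        exact (fin2_ne η η).1 h4 rfl
    · intro h
      rcases Nat.eq_zero_or_pos x.1 with h1 | h1
      · exact Or.inl (Or.inl h1)
      rcases Nat.eq_zero_or_pos x.2 with h2 | h2
      · exact Or.inl (Or.inr h2)
      right
      obtain ⟨k, u, hV⟩ := exists_isV hq h1
      obtain ⟨k', u', hV'⟩ := exists_isV hq h2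
      rcases Nat.lt_or_ge k k' with h3 | h3
      · exact Or.inr ⟨k, u, k', u', hV, hV', h3, (fin2_ne _ _).2 fun h4 =>
          h ⟨k, u, k', u', hV, hV', h3, h4⟩⟩
      · exact Or.inl ⟨k, u, k', u', hV, hV', h3⟩
  obtain ⟨G, ⟨hG1, hG2⟩, hGinf, hGP, hGR⟩ := greedyIn (A := A)
    (P := fun x : ℕ => x ∈ H ∧ ∃ k u, IsV q x k u ∧ d u = δ)
    (R := fun z x => ∃ k u k' u', IsV q z k u ∧ (IsV q x k' u' ∧ (k < k' ∧ g k k' = η)))
    hP hP' (hRg η) hR' (by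
      intro l hl b
      have hl' : ∀ z, ∃ k u, z ∈ l → IsV q z k u ∧ Lm k = η := by
        intro z
        by_cases hzl : z ∈ l
        · obtain ⟨hz1, k, u, hz2, hz3⟩ := hl z hzl
          exact ⟨k, u, fun _ => ⟨hz2, by rw [hlim z hz1 k u hz2, hz3]⟩⟩
        · exact ⟨0, 0, fun h => absurd h hzl⟩
      choose v w hvw using hl'
      obtain ⟨K, hK1, hK2⟩ := exists_bd (fun z => max (v z) (s (v z))) l b
      obtain ⟨x, hx, k, u, hV, hk, hdu⟩ := hδ K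
      refine ⟨x, ?_, ⟨hx, k, u, hV, hdu⟩, ?_⟩
      · have h1 : q ^ k ≤ x := Nat.le_of_dvd (hpos x hx) ⟨u, hV.1⟩
        have h2 : k < q ^ k := Nat.lt_pow_self hq
        omega
      · intro z hzl
        obtain ⟨h1, h2⟩ := hvw z hzl
        have h3 := hK2 z hzl
        have h4 : v z ≤ K := (le_max_left _ _).trans h3
        have h5 : s (v z) ≤ K := (le_max_right _ _).trans h3
        exact ⟨v z, w z, k, u, h1, hV, by omega, by rw [hLs _ _ (by omega), h2]⟩)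
  have hGpos : ∀ x ∈ G, 0 < x := fun x hx => hpos x (hGP x hx).1
  have hincr : ∀ x ∈ G, ∀ y ∈ G, x < y → ∀ k u k' u', IsV q x k u → IsV q y k' u' →
      k < k' ∧ g k k' = η := by
    intro x hx y hy hxy k u k' u' h1 h2
    obtain ⟨l, w, l', w', m1, m2, m3, m4⟩ := hGR x hx y hy hxy
    rw [(h1.uniq hq m1).1, (h2.uniq hq m2).1]
    exact ⟨m3, m4⟩
  have hincr' : ∀ x ∈ G, ∀ y ∈ G, ∀ k u k' u', IsV q x k u → IsV q y k' u' → k < k' →
      x < y := by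
    intro x hx y hy k u k' u' h1 h2 hkk
    rcases lt_trichotomy x y with h | h | h
    · exact h
    · subst h
      have := (h1.uniq hq h2).1
      omega
    · have := (hincr y hy x hx h _ _ _ _ h2 h1).1
      omega
  -- valuations of elements of `G` are unbounded
  have hGun : ∀ K, ∃ x ∈ G, ∃ k u, IsV q x k u ∧ K < k := by
    intro K
    by_contra hcon
    push Not at hcon
    have hv : ∀ x, ∃ k u, x ∈ G → IsV q x k u := by
      intro x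
      by_cases hx : x ∈ G
      · obtain ⟨k, u, h⟩ := exists_isV hq (hGpos x hx)
        exact ⟨k, u, fun _ => h⟩
      · exact ⟨0, 0, fun h => absurd h hx⟩
    choose v w hvw using hv
    obtain ⟨x, hx, y, hy, hxy, hres⟩ := hGinf.exists_ne_map_eq_of_mapsTo
      (f := v) (t := Set.Iic K) (fun x hx => hcon x hx _ _ (hvw x hx)) (Set.finite_Iic _)
    rcases lt_or_gt_of_ne hxy with h | h
    · have := (hincr x hx y hy h _ _ _ _ (hvw x hx) (hvw y hy)).1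
      omega
    · have := (hincr y hy x hx h _ _ _ _ (hvw y hy) (hvw x hx)).1
      omega
  refine ⟨{k | ∃ x u, x ∈ G ∧ IsV q x k u}, ?_, ⟨?_, ?_⟩, η, ?_⟩
  · intro hfin
    obtain ⟨B, hB⟩ := hfin.bddAbove
    obtain ⟨x, hx, k, u, hV, hk⟩ := hGun B
    have := hB (show k ∈ {k | ∃ x u, x ∈ G ∧ IsV q x k u} from ⟨x, u, hx, hV⟩)
    omega
  · refine REIn.ex (S := fun (k x : ℕ) => ∃ u, x ∈ G ∧ IsV q x k u) ?_
    refine REIn.ex (S := fun (y : ℕ × ℕ) (u : ℕ) => y.2 ∈ G ∧ IsV q y.2 y.1 u) ?_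
    refine REIn.and (hG1.comp (f := fun y : (ℕ × ℕ) × ℕ => y.1.2) (by fun_prop))
      (REIn.of_re ?_)
    exact RE.comp hIs.to_re (f := fun y : (ℕ × ℕ) × ℕ => (y.1.2, y.1.1, y.2)) (by fun_prop)
  · have h1 : REIn A fun k : ℕ => ∃ x, (x ∈ G ∧ ∃ k' u, IsV q x k' u ∧ k < k') ∧
        ∀ z < x, (z ∉ G ∨ ∃ j w, IsV q z j w ∧ j ≠ k) := by
      refine REIn.ex (S := fun (k x : ℕ) => (x ∈ G ∧ ∃ k' u, IsV q x k' u ∧ k < k') ∧
        ∀ z < x, (z ∉ G ∨ ∃ j w, IsV q z j w ∧ j ≠ k)) ?_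
      refine REIn.and (REIn.and (hG1.comp (f := fun y : ℕ × ℕ => y.2) (by fun_prop)) ?_) ?_
      · refine REIn.ex (S := fun (y : ℕ × ℕ) (k' : ℕ) => ∃ u, IsV q y.2 k' u ∧ y.1 < k') ?_
        refine REIn.ex (S := fun (y : (ℕ × ℕ) × ℕ) (u : ℕ) => IsV q y.1.2 y.2 u ∧
          y.1.1 < y.2) ?_
        refine REIn.of_re (RE.and ?_ (RE.lt (by fun_prop) (by fun_prop)))
        exact RE.comp hIs.to_re (f := fun y : ((ℕ × ℕ) × ℕ) × ℕ => (y.1.1.2, y.1.2, y.2))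
          (by fun_prop)
      · refine REIn.all_lt (S := fun (y : ℕ × ℕ) (z : ℕ) =>
          (z ∉ G ∨ ∃ j w, IsV q z j w ∧ j ≠ y.1)) ?_ (by fun_prop)
        refine REIn.or (hG2.comp (f := fun y : (ℕ × ℕ) × ℕ => y.2) (by fun_prop)) ?_
        refine REIn.ex (S := fun (y : (ℕ × ℕ) × ℕ) (j : ℕ) => ∃ w, IsV q y.2 j w ∧
          j ≠ y.1.1) ?_
        refine REIn.ex (S := fun (y : ((ℕ × ℕ) × ℕ) × ℕ) (w : ℕ) => IsV q y.1.2 y.2 w ∧
          y.2 ≠ y.1.1.1) ?_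
        refine REIn.of_re (RE.and ?_ (RE.ne (by fun_prop) (by fun_prop)))
        exact RE.comp hIs.to_re (f := fun y : (((ℕ × ℕ) × ℕ) × ℕ) × ℕ =>
          (y.1.1.2, y.1.2, y.2)) (by fun_prop)
    refine h1.of_eq fun k => ?_
    constructor
    · rintro ⟨x, ⟨hx, k', u, hV, hk⟩, hall⟩ ⟨z, w, hz1, hz2⟩
      have hzx := hincr' z hz1 x hx _ _ _ _ hz2 hV hk
      rcases hall z hzx with h2 | ⟨j, w', h2, h3⟩
      · exact h2 hz1
      · exact h3 (h2.uniq hq hz2).1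
    · intro hk
      obtain ⟨x, hx, k', u, hV, hkk⟩ := hGun k
      refine ⟨x, ⟨hx, k', u, hV, hkk⟩, fun z _ => ?_⟩
      by_cases hzG : z ∈ G
      · right
        obtain ⟨j, w, h2⟩ := exists_isV hq (hGpos z hzG)
        exact ⟨j, w, h2, fun h3 => hk ⟨z, w, hzG, h3 ▸ h2⟩⟩
      · exact Or.inl hzG
  · rintro k ⟨x, u, hx, hV⟩ k' ⟨y, u', hy, hV'⟩ hkk
    exact (hincr x hx y hy (hincr' x hx y hy _ _ _ _ hV hV' hkk) _ _ _ _ hV hV').2

end Pool.Agent.Run7.h353.PS
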