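import Mathlib
import Pool.Agent.Run7.h353.PS.Stable

/-! The order of two. -/

namespace Pool.Agent.Run7.h353.PS

/-- If the order of two modulo `b` is odd, some power of two with odd exponent is congruent to
one modulo `b`. -/
theorem exists_odd_pow {b : ℕ} (ho : Odd (orderOf (2 : ZMod b))) :
    ∃ m D, m % 2 = 1 ∧ b ∣ D ∧ 2 ^ m = 1 + D := by
  refine ⟨orderOf (2 : ZMod b), 2 ^ orderOf (2 : ZMod b) - 1, Nat.odd_iff.1 ho, ?_, ?_⟩
  · have h1 : ((2 ^ orderOf (2 : ZMod b) : ℕ) : ZMod b) = ((1 : ℕ) : ZMod b) := by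
      push_cast
      exact pow_orderOf_eq_one _
    have h2 := (ZMod.natCast_eq_natCast_iff _ _ _).1 h1
    exact (Nat.modEq_iff_dvd' Nat.one_le_two_pow).1 h2.symm
  · have : 1 ≤ 2 ^ orderOf (2 : ZMod b) := Nat.one_le_two_pow
    omega

/-- If the order of two modulo the odd number `b` is odd, every `b`-adically stable colouring with
two colours has a solution which is an arithmetic progression. -/
theorem odd_order {b : ℕ} (hb : b % 2 = 1) (ho : Odd (orderOf (2 : ZMod b))) {c : ℕ → Fin 2}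
    (hs : Stab b c) : ∃ p M, 1 ≤ p ∧ Sol c {x | ∃ k, x = p + b ^ M * (k + 1)} := by
  obtain ⟨ct, N, h1, h2⟩ := exists_lim (by omega) hs
  by_cases hA : ∃ p, 1 ≤ p ∧ ct (2 * p) = ct p
  · obtain ⟨p, hp, hpp⟩ := hA
    obtain ⟨M, hM⟩ := caseA' (by omega) h1 hp hpp
    exact ⟨p, M, hp, hM⟩
  · exfalso
    push Not at hA
    obtain ⟨m, D, hm, hD, hmD⟩ := exists_odd_pow ho
    obtain ⟨f, hf⟩ := pow_pow hb hD (N 1)
    have e1 := h2 1 le_rfl (b ^ N 1 * D * (1 + b * f)) ⟨D * (1 + b * f), by ring⟩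
    rw [← hf, ← hmD, ← pow_mul] at e1
    have h3 : (m * b ^ N 1) % 2 = 1 := by
      have h4 : Odd (m * b ^ N 1) :=
        (Nat.odd_iff.2 hm).mul ((Nat.odd_iff.2 hb).pow)
      exact Nat.odd_iff.1 h4
    obtain ⟨j, hj⟩ : ∃ j, m * b ^ N 1 = 2 * j + 1 := ⟨m * b ^ N 1 / 2, by omega⟩
    have h5 := hA (4 ^ j) (Nat.one_le_pow _ _ (by norm_num))
    have h6 := ct_four hA j 1 le_rfl
    rw [mul_one] at h6
    apply h5
    rw [h6, ← e1, hj]
    congr 1
    rw [pow_add, pow_mul]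
    norm_num
    ring

/-- If the order of two modulo every prime divisor of `b` is odd, some power of two with odd
exponent is congruent to one modulo `b`. -/
theorem exists_exp {b : ℕ} (hb : b % 2 = 1)
    (h : ∀ q, q.Prime → q ∣ b → Odd (orderOf (2 : ZMod q))) :
    ∃ m D, m % 2 = 1 ∧ b ∣ D ∧ 2 ^ m = 1 + D := by
  induction b using Nat.recOnMul with
  | zero => simp at hb
  | one => exact ⟨1, 1, by norm_num, dvd_rfl, by norm_num⟩
  | prime q hq => exact exists_odd_pow (h q hq dvd_rfl)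
  | mul a a' iha iha' =>
    have ha : a % 2 = 1 := by
      have : Odd (a * a') := Nat.odd_iff.2 hb
      exact Nat.odd_iff.1 (Nat.odd_mul.1 this).1
    have ha' : a' % 2 = 1 := by
      have : Odd (a * a') := Nat.odd_iff.2 hb
      exact Nat.odd_iff.1 (Nat.odd_mul.1 this).2
    obtain ⟨m, D, hm, hD, hmD⟩ := iha ha fun q hq hqa => h q hq (hqa.mul_right _)
    obtain ⟨m', D', hm', hD', hmD'⟩ := iha' ha' fun q hq hqa => h q hq (hqa.mul_left _)
    -- `x = 2 ^ (m * m')` is congruent to one modulo `a` and `a'`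
    obtain ⟨t1, ht1⟩ := binom2 D m'
    obtain ⟨t2, ht2⟩ := binom2 D' m
    set Y := m' * D + D ^ 2 * t1 with hY
    have hx : 2 ^ (m * m') = 1 + Y := by
      rw [pow_mul, hmD, ht1, hY]; ring
    have hx' : 2 ^ (m * m') = 1 + (m * D' + D' ^ 2 * t2) := by
      rw [mul_comm m m', pow_mul, hmD', ht2]; ring
    have hYa : a ∣ Y := by
      rw [hY]
      exact dvd_add (hD.mul_left _) (Dvd.dvd.mul_right (dvd_pow hD (by norm_num)) _)
    have hYa' : a' ∣ Y := by
      have e : Y = m * D' + D' ^ 2 * t2 := by omega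
      rw [e]
      exact dvd_add (hD'.mul_left _) (Dvd.dvd.mul_right (dvd_pow hD' (by norm_num)) _)
    obtain ⟨t3, ht3⟩ := binom2 Y a
    refine ⟨m * m' * a, a * Y + Y ^ 2 * t3, ?_, ?_, ?_⟩
    · exact Nat.odd_iff.1 (((Nat.odd_iff.2 hm).mul (Nat.odd_iff.2 hm')).mul (Nat.odd_iff.2 ha))
    · refine dvd_add (mul_dvd_mul_left a hYa') (Dvd.dvd.mul_right ?_ _)
      rw [pow_two]
      exact mul_dvd_mul hYa hYa'
    · rw [pow_mul, hx, ht3]; ring

/-- If the order of two modulo the odd number `b` is even, it is even modulo some prime divisor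
of `b`. -/
theorem exists_prime {b : ℕ} (hb : b % 2 = 1) (he : Even (orderOf (2 : ZMod b))) :
    ∃ q, q.Prime ∧ q ∣ b ∧ Even (orderOf (2 : ZMod q)) := by
  by_contra hcon
  push Not at hcon
  obtain ⟨m, D, hm, ⟨w, hw⟩, hmD⟩ := exists_exp hb fun q hq hqb => by
    have := hcon q hq hqb
    exact Nat.not_even_iff_odd.1 this
  have h1 : (2 : ZMod b) ^ m = 1 := by
    have h2 : ((2 ^ m : ℕ) : ZMod b) = ((1 + b * w : ℕ) : ZMod b) := by rw [hmD, hw]
    push_cast at h2
    rw [ZMod.natCast_self, zero_mul, add_zero] at h2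
    exact h2
  have h3 := orderOf_dvd_of_pow_eq_one h1
  obtain ⟨s, hs⟩ := he
  obtain ⟨t, ht⟩ := h3
  rw [ht, hs] at hm
  have : (s + s) * t = 2 * (s * t) := by ring
  omega

end Pool.Agent.Run7.h353.PS
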