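import Mathlib
import Pool.Agent.Run7.h353.PS.Reduce

/-! Colourings that are stable with respect to odd moduli. -/

namespace Pool.Agent.Run7.h353.PS

open Pool.Agent.Helper446 Pool.Agent.Helper446.RE Pool.Agent.Helper446.Oracle

/-- For every `n ≥ 1` there is a modulus `m` in `S` such that the colour of `n + y` is the same for
all positive multiples `y` of `m`. -/
def StabM {α : Type} (S : Set ℕ) (c : ℕ → α) : Prop :=
  ∀ n, 1 ≤ n → ∃ m ∈ S, ∀ y z, 0 < y → 0 < z → m ∣ y → m ∣ z → c (n + y) = c (n + z)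

/-- The product of the odd numbers up to `2 * k + 1`. -/
def oddProd : ℕ → ℕ
  | 0 => 1
  | k + 1 => oddProd k * (2 * k + 3)

theorem oddProd_odd (k : ℕ) : oddProd k % 2 = 1 := by
  induction k with
  | zero => rfl
  | succ k ih =>
    have h : Odd (oddProd k * (2 * k + 3)) := (Nat.odd_iff.2 ih).mul ⟨k + 1, by ring⟩
    exact Nat.odd_iff.1 h

theorem oddProd_pos (k : ℕ) : 0 < oddProd k := by
  have := oddProd_odd k
  omega

theorem lt_oddProd (k : ℕ) : k < oddProd k := by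
  cases k with
  | zero => exact oddProd_pos 0
  | succ k =>
    show k + 1 < oddProd k * (2 * k + 3)
    have : 2 * k + 3 ≤ oddProd k * (2 * k + 3) := Nat.le_mul_of_pos_left _ (oddProd_pos k)
    omega

theorem oddProd_dvd {k l : ℕ} (h : k ≤ l) : oddProd k ∣ oddProd l := by
  induction l, h using Nat.le_induction with
  | base => exact dvd_rfl
  | succ l _ ih => exact ih.mul_right _

theorem dvd_oddProd {m k : ℕ} (hm : m % 2 = 1) (h : m ≤ k) : m ∣ oddProd k := by
  obtain ⟨t, rfl⟩ : ∃ t, m = 2 * t + 1 := ⟨m / 2, by omega⟩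
  refine dvd_trans ?_ (oddProd_dvd (show t ≤ k by omega))
  cases t with
  | zero => exact one_dvd _
  | succ t => exact Dvd.intro_left (oddProd t) rfl

theorem pr_oddProd : Primrec oddProd := by
  have h : Primrec (fun i : ℕ =>
      (Nat.rec (motive := fun _ => ℕ) 1 (fun k r => r * (2 * k + 3)) i : ℕ)) :=
    Primrec.nat_rec₁ 1 (Primrec.nat_mul.comp Primrec.snd (Primrec.nat_add.comp
      (Primrec.nat_mul.comp (Primrec.const 2) Primrec.fst) (Primrec.const 3))).to₂
  refine h.of_eq fun i => ?_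
  induction i with
  | zero => rfl
  | succ i ih => rw [oddProd, ← ih]

/-- Arithmetic progressions as solutions. -/
theorem apSol {α : Type} {c : ℕ → α} {p M : ℕ} (hM : 0 < M) {i : α}
    (h1 : ∀ y, 0 < y → M ∣ y → c (p + y) = i) (h2 : ∀ y, 0 < y → M ∣ y → c (2 * p + y) = i) :
    Sol c {x | ∃ k, x = p + M ^ 1 * (k + 1)} := by
  rw [pow_one]
  refine ⟨?_, ?_, i, ?_, ?_⟩
  · refine Set.infinite_of_injective_forall_mem (f := fun k : ℕ => p + M * (k + 1)) ?_
      (fun k => ⟨k, rfl⟩)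
    intro a a' hab
    have h3 : M * (a + 1) = M * (a' + 1) := by
      have : p + M * (a + 1) = p + M * (a' + 1) := hab
      omega
    have h4 := Nat.eq_of_mul_eq_mul_left hM h3
    omega
  · rintro ⟨k, hk⟩
    have : 0 < M * (k + 1) := by positivity
    omega
  · rintro _ ⟨k, rfl⟩
    exact h1 _ (by positivity) (Dvd.intro _ rfl)
  · rintro _ ⟨k, rfl⟩ _ ⟨l, rfl⟩ _
    have e : p + M * (k + 1) + (p + M * (l + 1)) = 2 * p + M * (k + l + 2) := by ring
    rw [e]
    exact h2 _ (by positivity) (Dvd.intro _ rfl)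

/-- The limit colours. -/
theorem exists_limM {α : Type} {c : ℕ → α} (h : StabM {m | Odd m} c) :
    ∃ (ct : ℕ → α) (m : ℕ → ℕ), (∀ n, m n % 2 = 1) ∧
      (∀ n, 1 ≤ n → ∀ y, 0 < y → m n ∣ y → c (n + y) = ct n) ∧
      ∀ n, 1 ≤ n → ∀ y, m n ∣ y → ct (n + y) = ct n := by
  have h' : ∀ n, ∃ m, m % 2 = 1 ∧ (1 ≤ n → ∀ y z, 0 < y → 0 < z → m ∣ y → m ∣ z →
      c (n + y) = c (n + z)) := by
    intro n
    by_cases hn : 1 ≤ n
    · obtain ⟨m, hm, h1⟩ := h n hn
      exact ⟨m, Nat.odd_iff.1 hm, fun _ => h1⟩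
    · exact ⟨1, rfl, fun h1 => absurd h1 hn⟩
  choose m hm hc using h'
  have hpos : ∀ n, 0 < m n := fun n => by have := hm n; omega
  have h1 : ∀ n, 1 ≤ n → ∀ y, 0 < y → m n ∣ y → c (n + y) = c (n + m n) :=
    fun n hn y hy hd => hc n hn y _ hy (hpos n) hd dvd_rfl
  refine ⟨fun n => c (n + m n), m, hm, h1, ?_⟩
  intro n hn y hd
  have hpos2 : 0 < m n * m (n + y) := Nat.mul_pos (hpos _) (hpos _)
  have h2 := h1 (n + y) (by omega) (m n * m (n + y)) hpos2 (Dvd.intro_left _ rfl)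
  have h3 := h1 n hn (y + m n * m (n + y)) (by omega) (dvd_add hd (Dvd.intro _ rfl))
  show c (n + y + m (n + y)) = c (n + m n)
  rw [← h2, ← h3, add_assoc]

variable {A : Set ℕ}

/-- The candidates. -/
def CandM (X : Set ℕ) (x : ℕ) : Prop :=
  ∃ k, k < x + 1 ∧ (k ∈ X ∧ ∃ j, j < x + 1 ∧ x = 4 ^ j * oddProd k)

theorem candM_iff {X : Set ℕ} {x : ℕ} : CandM X x ↔ ∃ k j, k ∈ X ∧ x = 4 ^ j * oddProd k := by
  constructor
  · rintro ⟨k, _, h1, j, _, h2⟩
    exact ⟨k, j, h1, h2⟩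
  · rintro ⟨k, j, h1, h2⟩
    have h3 : k < x := by
      rw [h2]
      exact lt_of_lt_of_le (lt_oddProd k) (Nat.le_mul_of_pos_left _ (by positivity))
    have h4 : j < x := by
      rw [h2]
      exact lt_of_lt_of_le (Nat.lt_pow_self (by norm_num))
        (Nat.le_mul_of_pos_right _ (oddProd_pos k))
    exact ⟨k, by omega, h1, j, by omega, h2⟩

theorem re_candM {X : Set ℕ} (hX : REIn A (· ∈ X)) (hX' : REIn A (· ∉ X)) :
    REIn A (fun x => CandM X x) ∧ REIn A (fun x => ¬ CandM X x) := by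
  have h1 : ComputablePred fun y : (ℕ × ℕ) × ℕ => y.1.1 = 4 ^ y.2 * oddProd y.1.2 := by
    refine cp_of_pp ?_
    exact Primrec.eq.comp (Primrec.fst.comp Primrec.fst)
      (Primrec.nat_mul.comp ((pr_pow 4).comp Primrec.snd)
        (pr_oddProd.comp (Primrec.snd.comp Primrec.fst)))
  constructor
  · unfold CandM
    refine REIn.ex (S := fun (x k : ℕ) => k < x + 1 ∧ (k ∈ X ∧ ∃ j, j < x + 1 ∧
      x = 4 ^ j * oddProd k)) ?_
    refine REIn.and (REIn.of_re (RE.lt (by fun_prop) (by fun_prop))) (REIn.and ?_ ?_)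
    · exact hX.comp (f := fun x : ℕ × ℕ => x.2) (by fun_prop)
    refine REIn.ex (S := fun (x : ℕ × ℕ) (j : ℕ) => j < x.1 + 1 ∧
      x.1 = 4 ^ j * oddProd x.2) ?_
    exact REIn.and (REIn.of_re (RE.lt (by fun_prop) (by fun_prop))) (REIn.of_re h1.to_re)
  · have h : REIn A fun x : ℕ => ∀ k < x + 1, (k ∉ X ∨ ∀ j < x + 1,
        ¬ (x = 4 ^ j * oddProd k)) := by
      refine REIn.all_lt (S := fun (x k : ℕ) => (k ∉ X ∨ ∀ j < x + 1,
        ¬ (x = 4 ^ j * oddProd k))) ?_ (by fun_prop)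
      refine REIn.or (hX'.comp (f := fun x : ℕ × ℕ => x.2) (by fun_prop)) ?_
      refine REIn.all_lt (S := fun (x : ℕ × ℕ) (j : ℕ) =>
        ¬ (x.1 = 4 ^ j * oddProd x.2)) ?_ (by fun_prop)
      exact REIn.of_re h1.not.to_re
    refine h.of_eq fun x => ?_
    unfold CandM
    constructor
    · rintro h2 ⟨k, hk, hkX, j, hj, h3⟩
      rcases h2 k hk with h4 | h4
      · exact h4 hkX
      · exact h4 j hj h3
    · intro h2 k hk
      by_cases hkX : k ∈ X
      · exact Or.inr fun j hj h3 => h2 ⟨k, hk, hkX, j, hj, h3⟩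
      · exact Or.inl hkX

variable {c : ℕ → Fin 2}

/-- **Odd moduli.** -/
theorem base_oddM (hc : ∀ i, REIn A fun x => c x = i) (hs : StabM {m | Odd m} c) {X : Set ℕ}
    (hXinf : X.Infinite) {e : Fin 2}
    (hXh : ∀ x ∈ X, ∀ y ∈ X, x < y → c (oddProd x + oddProd y) = e)
    (hX : REIn A (· ∈ X)) (hX' : REIn A (· ∉ X)) :
    ∃ H : Set ℕ, (REIn A (· ∈ H) ∧ REIn A (· ∉ H)) ∧ Sol c H := by
  obtain ⟨ct, m, hm, h1, h2⟩ := exists_limM hs
  have hmpos : ∀ n, 0 < m n := fun n => by have := hm n; omega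
  by_cases hA : ∃ p, 1 ≤ p ∧ ct (2 * p) = ct p
  · obtain ⟨p, hp, hpp⟩ := hA
    have hM : 0 < m p * m (2 * p) := Nat.mul_pos (hmpos _) (hmpos _)
    refine ⟨_, re_of_cp (cp_ap hM p 1), apSol hM (i := ct p) ?_ ?_⟩
    · intro y hy hd
      exact h1 p hp y hy (dvd_trans (Dvd.intro _ rfl) hd)
    · intro y hy hd
      rw [← hpp]
      exact h1 (2 * p) (by omega) y hy (dvd_trans (Dvd.intro_left _ rfl) hd)
  · push Not at hA
    have hpow : ∀ k, 1 ≤ oddProd k := fun k => oddProd_pos k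
    have hctX : ∀ k ∈ X, ct (oddProd k) = e := by
      intro k hk
      obtain ⟨y, hy, hyk⟩ := hXinf.exists_gt (max k (m (oddProd k)))
      rw [← h1 (oddProd k) (hpow k) (oddProd y) (hpow y) (dvd_oddProd (hm _)
        ((le_max_right _ _).trans hyk.le))]
      exact hXh k hk y hy (lt_of_le_of_lt (le_max_left _ _) hyk)
    have h6 : ∀ z, CandM X z → 1 ≤ z ∧ ct z = e := by
      intro z hz
      obtain ⟨k, j, hk, rfl⟩ := candM_iff.1 hz
      refine ⟨Nat.mul_pos (by positivity) (hpow k), ?_⟩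
      rw [ct_four hA j _ (hpow k)]
      exact hctX k hk
    refine greedyCol hc (re_candM hX hX').1 (re_candM hX hX').2 (fun x hx => (h6 x hx).1) e ?_
    intro l hl B
    obtain ⟨K, hK, hK2⟩ := exists_bd m l B
    obtain ⟨k, hk, hkK⟩ := hXinf.exists_gt K
    set M := m (oddProd k) with hMdef
    have hcop : Nat.Coprime 4 M := by
      have : Nat.Coprime 2 M := (Nat.coprime_two_left).2 (Nat.odd_iff.2 (hm _))
      exact Nat.Coprime.pow_left 2 this
    have h7 : 4 ^ Nat.totient M ≡ 1 [MOD M] := Nat.ModEq.pow_totient hcop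
    have hpos : 0 < Nat.totient M := Nat.totient_pos.2 (hmpos _)
    have h8 : 4 ≤ 4 ^ Nat.totient M := by
      calc 4 = 4 ^ 1 := by norm_num
        _ ≤ 4 ^ Nat.totient M := Nat.pow_le_pow_right (by norm_num) hpos
    obtain ⟨w, hw⟩ := (Nat.modEq_iff_dvd' (by omega)).1 h7.symm
    have hx : 4 ^ Nat.totient M * oddProd k = oddProd k + M * (w * oddProd k) := by
      have e4 : 4 ^ Nat.totient M = 1 + M * w := by omega
      rw [e4]; ring
    have hw0 : 0 < M * (w * oddProd k) := by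
      have e4 : 0 < M * w := by omega
      have e5 : M * (w * oddProd k) = M * w * oddProd k := by ring
      rw [e5]
      exact Nat.mul_pos e4 (hpow k)
    have hxpos : 0 < 4 ^ Nat.totient M * oddProd k := Nat.mul_pos (by positivity) (hpow k)
    refine ⟨4 ^ Nat.totient M * oddProd k, ?_, candM_iff.2 ⟨k, _, hk, rfl⟩, ?_, ?_⟩
    · have := lt_oddProd k
      omega
    · rw [hx, h1 _ (hpow k) _ hw0 (Dvd.intro _ rfl)]
      exact hctX k hk
    · intro z hz
      obtain ⟨h10, h11⟩ := h6 z (hl z hz)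
      rw [h1 z h10 _ hxpos (Dvd.dvd.mul_left (dvd_oddProd (hm z) (by
        have := hK2 z hz
        omega)) _), h11]

end Pool.Agent.Run7.h353.PS
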