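import Mathlib
import Pool.Agent.Run7.h353.PS.OddStab

/-! Scaling solutions. -/

namespace Pool.Agent.Run7.h353.PS

open Pool.Agent.Helper446 Pool.Agent.Helper446.RE Pool.Agent.Helper446.Oracle

variable {A : Set ℕ}

/-- The multiples `s * h`, `h ∈ H`. -/
def scale (s : ℕ) (H : Set ℕ) : Set ℕ := {x | x % s = 0 ∧ x / s ∈ H}

theorem scale_sol {α : Type} {c : ℕ → α} {s : ℕ} (hs : 0 < s) {H : Set ℕ}
    (h : Sol (fun n => c (s * n)) H) : Sol c (scale s H) := by
  obtain ⟨h1, h2, i, h3, h4⟩ := h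
  have key : ∀ x ∈ scale s H, ∃ t ∈ H, x = s * t := by
    rintro x ⟨hx, hx'⟩
    exact ⟨x / s, hx', (Nat.mul_div_cancel' (Nat.dvd_of_mod_eq_zero hx)).symm⟩
  refine ⟨?_, ?_, i, ?_, ?_⟩
  · have h5 : ((fun n => s * n) '' H).Infinite := by
      refine h1.image ?_
      intro a _ b _ hab
      exact Nat.eq_of_mul_eq_mul_left hs hab
    refine h5.mono ?_
    rintro _ ⟨t, ht, rfl⟩
    exact ⟨Nat.mul_mod_right _ _, by
      show s * t / s ∈ H
      rw [Nat.mul_div_cancel_left _ hs]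
      exact ht⟩
  · rintro ⟨_, h⟩
    rw [Nat.zero_div] at h
    exact h2 h
  · intro x hx
    obtain ⟨t, ht, rfl⟩ := key x hx
    exact h3 t ht
  · intro x hx y hy hxy
    obtain ⟨t, ht, rfl⟩ := key x hx
    obtain ⟨u, hu, rfl⟩ := key y hy
    have := h4 t ht u hu (fun h => hxy (by rw [h]))
    rw [← mul_add]
    exact this

theorem re_scale (s : ℕ) {H : Set ℕ} (h1 : REIn A (· ∈ H)) (h2 : REIn A (· ∉ H)) :
    REIn A (· ∈ scale s H) ∧ REIn A (· ∉ scale s H) := by
  have hm : ComputablePred fun x : ℕ => x % s = 0 :=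
    cp_of_pp (Primrec.eq.comp (Primrec.nat_mod.comp Primrec.id (Primrec.const s))
      (Primrec.const 0))
  have hd : Computable fun x : ℕ => x / s :=
    (Primrec.nat_div.comp Primrec.id (Primrec.const s)).to_comp
  constructor
  · exact (REIn.of_re hm.to_re).and (h1.comp hd)
  · refine ((REIn.of_re hm.not.to_re).or (h2.comp hd)).of_eq fun x => ?_
    unfold scale
    rw [Set.mem_ofPred_eq]
    tauto

theorem re_mul {c : ℕ → Fin 2} (s : ℕ) (hc : ∀ i, REIn A fun x => c x = i) (i : Fin 2) :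
    REIn A fun x => c (s * x) = i :=
  (hc i).comp (f := fun x : ℕ => s * x)
    (Primrec.nat_mul.comp (Primrec.const s) Primrec.id).to_comp

end Pool.Agent.Run7.h353.PS
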